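import Pool.Agent.W829.UC.Defs

/-!
# MP_566bac_pr: exact statements of the subtasks (proofs: see table subtasks, UC-*)
-/

set_option autoImplicit false
set_option linter.all false

open MeasureTheory Set
open Pool.Agent.H978R2

namespace Pool.Agent.W829.UC

/-! ## A. deterministic: existence of the harmonic function -/

/-- UC-A1: sign of the determinants `D - A` with starts `X` and ends `T`, when every system of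
disjoint paths joins `X i` to `T i`. -/
def S_A1 : Prop := ∀ (α : Type) [DecidableEq α] (G : SimpleGraph α) (d : α → ℝ) (J : Finset α),
  (∀ K : Finset α, K ⊆ J → 0 < (Matrix.of fun (x y : K) => Em G d (x : α) (y : α)).det) →
  ∀ (k : ℕ) (X T : Fin k → α), Function.Injective X → Function.Injective T →
    (∀ i, X i ∉ J) → (∀ i, T i ∉ J) → (∀ i j, X i ≠ T j) →
    (∀ π, PS G (↑J) X T π → π = 1) → PS G (↑J) X T 1 →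
    0 < (-1 : ℝ) ^ k * (Matrix.of fun (a b : J ⊕ Fin k) =>
      Em G d (Sum.elim (fun x : J => (x : α)) X a) (Sum.elim (fun x : J => (x : α)) T b)).det

/-- UC-A2: positivity of the principal minors. -/
def S_A2 : Prop := ∀ (G : SimpleGraph (ℤ × ℤ)) (C : Set (ℤ × ℤ)), G ≤ lat → C.Infinite →
  (∀ x ∈ C, ∀ y ∈ C, G.Reachable x y) → ∀ K : Finset (ℤ × ℤ), (∀ x ∈ K, x ∈ C) →
    0 < (Matrix.of fun (x y : K) => Em G (dg G) (x : ℤ × ℤ) (y : ℤ × ℤ)).det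

/-- UC-A3: a Menger theorem for the box (via Hall's theorem). -/
def S_A3 : Prop := ∀ (α : Type) [DecidableEq α] (G : SimpleGraph α) (Λ S : Finset α) (Z : Set α),
  S ⊆ Λ → (∀ x ∈ Λ, x ∈ Z → x ∈ S) → (∀ x ∈ Λ, {y | G.Adj x y}.Finite) →
  (∀ y, y ∉ Λ → ∀ x ∈ Λ, ∀ x' ∈ Λ, G.Adj x y → G.Adj x' y → x = x') →
  ∀ k : ℕ, (∀ W : Finset α, S ⊆ W → W ⊆ Λ → k ≤ cst G Zᶜ W) →
  ∃ X T : Fin k → α, Function.Injective X ∧ Function.Injective T ∧ (∀ i, X i ∈ S) ∧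
    (∀ i, T i ∉ Λ ∧ T i ∉ Z) ∧ PS G (↑(Λ \ S)) X T 1

/-- UC-PL1: two disjoint paths from the boundary of an admissible region to the exits of the box are
in the same order at both ends. -/
def S_PL1 : Prop := ∀ g : ℤ → ℤ, Adm g → ∀ N R M : ℤ, Fits g N R M →
  ∀ (x t x' t' : ℤ × ℤ) (l l' : List (ℤ × ℤ)), Tr g N R M x t l → Tr g N R M x' t' l' →
    x ≠ x' → t ≠ t' → l.Disjoint l' → (sk x < sk x' ↔ ek M t < ek M t')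

/-- UC-A4: sorting starts and exits makes the pairing unique. -/
def S_A4 : Prop := ∀ g : ℤ → ℤ, Adm g → ∀ N R M : ℤ, Fits g N R M →
  ∀ (G : SimpleGraph (ℤ × ℤ)), G ≤ lat → ∀ J : Set (ℤ × ℤ),
  (∀ x ∈ J, x ∈ Rc (-N) R (-M) M ∧ x ∉ Rg g) → ∀ (k : ℕ) (X T : Fin k → ℤ × ℤ),
  Function.Injective X → Function.Injective T →
  (∀ i, X i ∈ Rg g ∧ X i ∈ Rc (-N) R (-M) M) → (∀ i, T i ∉ Rg g ∧ T i ∉ Rc (-N) R (-M) M) →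
  PS G J X T 1 →
  ∃ X' T' : Fin k → ℤ × ℤ, Function.Injective X' ∧ Function.Injective T' ∧
    Set.range X' = Set.range X ∧ Set.range T' = Set.range T ∧ PS G J X' T' 1 ∧
    ∀ π, PS G J X' T' π → π = 1

/-- UC-A5a: a rank count. Rows `r x`, `x ∈ P1`, live on the finite set `Q`; there are `|P2|` further
rows; a nonsingular square submatrix of size `≥ |Q| + |P2|` avoids the column `z`. Then `e_z` is not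
in the row space. -/
def S_A5a : Prop := ∀ (α : Type) [DecidableEq α] (r : α → (α →₀ ℝ)) (P1 P2 Q : Finset α) (z : α),
  (∀ x ∈ P1, (r x).support ⊆ Q) →
  ∀ (I : Type) [Fintype I] [DecidableEq I] (ρ κ : I → α), (∀ a, ρ a ∈ P1 ∪ P2) → (∀ a, κ a ≠ z) →
    Q.card + P2.card ≤ Fintype.card I →
    (Matrix.of fun (a b : I) => r (ρ a) (κ b)).det ≠ 0 →
    Finsupp.single z (1 : ℝ) ∉ Submodule.span ℝ (r '' (↑(P1 ∪ P2) : Set α))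

/-- UC-A5b: algebraic duality for row-finite systems. -/
def S_A5b : Prop := ∀ (α : Type) (P : Set α) (r : α → (α →₀ ℝ)) (z : α),
  Finsupp.single z (1 : ℝ) ∉ Submodule.span ℝ (r '' P) →
  ∃ h : α → ℝ, h z = 1 ∧ ∀ x ∈ P, (r x).sum (fun y c => c * h y) = 0

/-- UC-A5: the deterministic existence theorem. -/
def S_A5 : Prop := ∀ (G : SimpleGraph (ℤ × ℤ)) (C : Set (ℤ × ℤ)), G ≤ lat → InfComp G C →
  ∀ (g : ℤ → ℤ) (y0 : ℤ), Adm (Function.update g y0 (g y0 - 1)) → (g y0, y0) ∈ C →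
  (g y0, y0) ∉ Cl G (Rg g) →
  ∃ h : ℤ × ℤ → ℝ, (∀ x ∈ C, HarmAt G h x) ∧ (∀ x ∈ Rg g, h x = 0) ∧ h (g y0, y0) = 1

/-! ## B. deterministic: closure operator and certificates -/

/-- UC-B1: basic properties of costs, certificates and the closure. -/
def S_B1 : Prop := ∀ (α : Type) [DecidableEq α] (G : SimpleGraph α),
  (∀ (U : Set α) (W1 W2 : Finset α),
    cst G U (W1 ∪ W2) + cst G U (W1 ∩ W2) ≤ cst G U W1 + cst G U W2) ∧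
  (∀ (A : Set α) (W1 W2 : Finset α), Cert G A W1 → Cert G A W2 → Cert G A (W1 ∪ W2)) ∧
  (∀ (A : Set α) (a : α), a ∈ A → Cert G A {a}) ∧
  (∀ (A : Set α), A ⊆ Cl G A) ∧
  (∀ (A : Set α) (v : α), {y | G.Reachable v y}.Finite → v ∈ Cl G A) ∧
  (∀ (A : Set α) (W E : Finset α), Cert G A W →
    (∀ x ∈ E, ∀ y, G.Adj x y → y ∈ E ∨ y ∈ W ∨ y ∈ A) → Cert G A (W ∪ E)) ∧
  ((∀ x, {y | G.Adj x y}.Finite) → ∀ (A B : Set α), B ⊆ A → A ⊆ Cl G B → Cl G A ⊆ Cl G B) ∧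
  (∀ (A : Set α) (W : Finset α), Cert G A W → ∃ W1 : Finset α, W1 ⊆ W ∧ Cert G A W1 ∧
    (∀ x ∈ W, x ∈ A → x ∈ W1) ∧ (∀ x ∈ W1, Con G (↑W1) x A) ∧ (∀ x, Con G (↑W) x A → x ∈ W1))

/-- UC-B2: the chain of regions (uses UC-B1). -/
def S_B2 : Prop := ∀ A : ℤ, 2 ≤ A → ∀ G : SimpleGraph (ℤ × ℤ), G ≤ lat → ∀ v : ℤ × ℤ,
  v ∉ Cl G (Zw A) → ∃ (g : ℤ → ℤ) (y0 : ℤ), Zw A ⊆ Rg g ∧
    Adm (Function.update g y0 (g y0 - 1)) ∧ (g y0, y0) ∉ Cl G (Rg g)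

/-- UC-B3a: a connection from the negative axis to the wedge contains a connection in a half
plane starting at `(-i', s)`, `i' ≥ A`. -/
def S_B3a : Prop := ∀ A : ℤ, 2 ≤ A → ∀ G : SimpleGraph (ℤ × ℤ), G ≤ lat → E0 A G →
  ∀ (W : Set (ℤ × ℤ)) (i : ℤ), 1 ≤ i → Con G W (-i, 0) (Zw A) →
  ∃ s i' : ℤ, (s = 1 ∨ s = -1) ∧ A ≤ i' ∧
    Con (res G (Hf s)) (W ∩ Hf s) (-i', s) (Zw A ∩ Hf s)

/-- UC-B3: the vertices of the negative axis in infinite clusters are not in the closure of the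
wedge (uses UC-B1, UC-B3a). -/
def S_B3 : Prop := ∀ A : ℤ, 2 ≤ A → ∀ G : SimpleGraph (ℤ × ℤ), G ≤ lat → E0 A G →
  Qs A 1 G → Qs A (-1) G → ∀ i : ℤ, 1 ≤ i → {y | G.Reachable (-i, 0) y}.Infinite →
    (-i, 0) ∉ Cl G (Zw A)

/-- UC-PL2: a path `γ` in the upper half plane from `(-j, 1)` to a point `z`, `z.1 ≥ 1`, encloses
every path `m` starting at `(-i, 1)`, `0 ≤ i < j`, that avoids `γ` and the points below `z`. -/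
def S_PL2 : Prop := ∀ (γ m : List (ℤ × ℤ)) (hγ : γ ≠ []) (hm : m ≠ []) (i j : ℤ),
  γ.IsChain lat.Adj → m.IsChain lat.Adj → γ.head hγ = (-j, 1) → 0 ≤ i → i < j →
  m.head hm = (-i, 1) → 1 ≤ (γ.getLast hγ).1 → (∀ v ∈ γ, 1 ≤ v.2) →
  (∀ v ∈ m, 1 ≤ v.2 ∧ v ∉ γ ∧ ¬ (v.1 = (γ.getLast hγ).1 ∧ v.2 ≤ (γ.getLast hγ).2)) →
  (∃ v ∈ γ, (m.getLast hm).2 ≤ v.2) ∧ (∃ v ∈ γ, v.1 ≤ (m.getLast hm).1) ∧
    (∃ v ∈ γ, (m.getLast hm).1 < v.1) ∧ ((m.getLast hm).2 = 1 → -j ≤ (m.getLast hm).1)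

/-- UC-B5a: filling a certificate (uses UC-B1, UC-PL2). -/
def S_B5a : Prop := ∀ A : ℤ, 2 ≤ A → ∀ G : SimpleGraph (ℤ × ℤ), G ≤ lat →
  ∀ W : Finset (ℤ × ℤ), (∀ x ∈ W, x ∈ Hf 1) → Cert (res G (Hf 1)) (Zw A ∩ Hf 1) W →
  ∀ i : ℤ, A ≤ i → Con (res G (Hf 1)) (↑W) (-i, 1) (Zw A ∩ Hf 1) →
  ∃ W2 : Finset (ℤ × ℤ), (∀ x ∈ W2, x ∈ Hf 1) ∧ Cert (res G (Hf 1)) (Zw A ∩ Hf 1) W2 ∧
    ∃ j : ℤ, A ≤ j ∧ (∀ i', 0 ≤ i' → i' ≤ j → (-i', 1) ∈ W2) ∧ (∀ i', j < i' → (-i', 1) ∉ W2)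

/-- UC-B5b: the cost of the filled certificate. -/
def S_B5b : Prop := ∀ A : ℤ, 2 ≤ A → ∀ G : SimpleGraph (ℤ × ℤ), G ≤ lat →
  ∀ (W : Finset (ℤ × ℤ)) (j : ℤ), (∀ x ∈ W, x ∈ Hf 1) →
    Cert (res G (Hf 1)) (Zw A ∩ Hf 1) W → A ≤ j → (∀ i', 0 ≤ i' → i' ≤ j → (-i', 1) ∈ W) →
    (∀ i', j < i' → (-i', 1) ∉ W) →
  ∃ (k : ℕ) (Λ : Finset (ℤ × ℤ)), 1 ≤ k ∧ (∀ x, x ∈ Ly A k → x ∉ Ly A 0 → x ∈ Λ) ∧
    fm G (U1 A) Λ (Ly A k) ≤ fm G (U1 A) Λ (Ly A 0) + k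

/-! ## C. probability -/

/-- UC-C1: subcritical clusters do not become long by opening a few edges (sprinkling). -/
def S_C1 : Prop := ∀ (q : NNReal) (hq : q ≤ 1), (q : ℝ) < 1 / 2 →
  ∃ κ K c : ℝ, 0 < κ ∧ 0 < K ∧ 0 < c ∧ ∀ (x : ℤ × ℤ) (n : ℕ),
    (mu q hq).real {ω | ∃ F : Finset (Sym2 (ℤ × ℤ)), (F.card : ℝ) ≤ κ * n ∧
      opF ω F ∈ armE x n} ≤ K * Real.exp (-c * n)

/-- the lower bound for cuts above the layer -/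
def CutLB (p : NNReal) (hp : p ≤ 1) (κ : ℝ) (A : ℤ) : Prop :=
  ∀ (m : ℤ) (ε : ℝ), 0 < ε → ∃ L0 : ℕ, ∀ L : ℕ, L0 ≤ L →
    ∃ E : Set (Sym2 (ℤ × ℤ) → Bool), MeasurableSet E ∧ 1 - ε ≤ (mu p hp).real E ∧
    ∀ ω ∈ E, ∀ W : Finset (ℤ × ℤ), (∀ x, x ∈ Ly A L → x ∉ Ly A 0 → x ∈ W) →
      (∀ x ∈ W, A * x.2 - x.1 ≤ m) → κ * ((L : ℝ) * (A : ℝ)) ≤ (cst (og ω) (U1 A) W : ℝ)

/-- UC-C2: linear lower bound for cuts (uses UC-C1 and planar duality). -/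
def S_C2 : Prop := ∀ (p : NNReal) (hp : p ≤ 1), (1 / 2 : ℝ) < p →
  ∃ κ : ℝ, 0 < κ ∧ ∀ A : ℤ, 1 ≤ A → CutLB p hp κ A

/-- UC-C3: properties of `fm`. -/
def S_C3 : Prop := ∀ (α : Type) [DecidableEq α] (G : SimpleGraph α) (U : Set α),
  (∀ (Λ : Finset α) (A : Set α), ∃ W : Finset α, W ⊆ Λ ∧ (∀ x ∈ Λ, x ∈ A → x ∈ W) ∧
    cst G U W = fm G U Λ A) ∧
  (∀ (Λ : Finset α) (A : Set α) (W : Finset α), W ⊆ Λ → (∀ x ∈ Λ, x ∈ A → x ∈ W) →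
    fm G U Λ A ≤ cst G U W) ∧
  (∀ (Λ : Finset α) (A A' : Set α), A ⊆ A' → fm G U Λ A ≤ fm G U Λ A') ∧
  (∀ (Λ : Finset α) (A A' : Set α) (B : Finset α), (∀ x, x ∈ A' → x ∉ A → x ∈ B) →
    fm G U Λ A' ≤ fm G U Λ A + B.card) ∧
  (∀ (Λ : Finset α) (A : Set α) (B : Finset α), (∀ x ∈ Λ, x ∈ A → x ∈ B) →
    fm G U Λ A ≤ B.card) ∧
  (∀ (Λ Λ' : Finset α) (A A' : Set α), Λ ⊆ Λ' → A ⊆ A' → (∀ x, x ∈ A' → x ∉ A → x ∈ Λ) →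
    fm G U Λ' A' + fm G U Λ A ≤ fm G U Λ' A + fm G U Λ A') ∧
  (∀ (G' : SimpleGraph α) (Λ : Finset α) (A : Set α),
    (∀ x ∈ Λ, ∀ y ∈ U, (G.Adj x y ↔ G'.Adj x y)) → fm G U Λ A = fm G' U Λ A) ∧
  (∀ (G' : SimpleGraph α) (e : α ≃ α), (∀ x y, G'.Adj (e x) (e y) ↔ G.Adj x y) →
    ∀ (Λ : Finset α) (A : Set α), fm G' (e '' U) (Λ.image e) (e '' A) = fm G U Λ A)

/-- UC-C4: rising sun lemma. -/
def S_C4 : Prop := ∀ (Ω : Type) [MeasurableSpace Ω] (μ : Measure Ω) [IsProbabilityMeasure μ]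
  (τ : Ω → Ω), MeasurePreserving τ μ μ → ∀ (ξ : Ω → ℝ), Measurable ξ → ∀ B : ℝ,
  (∀ ω, |ξ ω| ≤ B) → ∀ c : ℝ, c < ∫ ω, ξ ω ∂μ →
  0 < μ {ω | ∀ k : ℕ, 1 ≤ k → c * k < ∑ i ∈ Finset.range k, ξ (τ^[i] ω)}

/-- UC-C5a: the mean increment of the cut cost (uses UC-C3). -/
def S_C5a : Prop := ∀ (p : NNReal) (hp : p ≤ 1) (κ : ℝ) (A : ℤ), 1 ≤ A → CutLB p hp κ A →
  ∀ Λ : Finset (ℤ × ℤ), (∀ x, x ∈ Ly A 1 → x ∉ Ly A 0 → x ∈ Λ) →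
    κ * (A : ℝ) ≤ ∫ ω, ((fm (og ω) (U1 A) Λ (Ly A 1) : ℝ) - (fm (og ω) (U1 A) Λ (Ly A 0) : ℝ))
      ∂(mu p hp)

/-- UC-C5b: the event `Fp` has positive probability (uses UC-C3, UC-C4). -/
def S_C5b : Prop := ∀ (p : NNReal) (hp : p ≤ 1) (c : ℝ) (A : ℤ), 1 ≤ A → 1 < c →
  (∀ Λ : Finset (ℤ × ℤ), (∀ x, x ∈ Ly A 1 → x ∉ Ly A 0 → x ∈ Λ) →
    c ≤ ∫ ω, ((fm (og ω) (U1 A) Λ (Ly A 1) : ℝ) - (fm (og ω) (U1 A) Λ (Ly A 0) : ℝ))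
      ∂(mu p hp)) →
  ∃ E : Set (Sym2 (ℤ × ℤ) → Bool), MeasurableSet E ∧ 0 < mu p hp E ∧ ∀ ω ∈ E, Fp A (og ω)

/-- UC-C6: measurability, reflection and independence. -/
def S_C6 : Prop := ∀ (p : NNReal) (hp : p ≤ 1), p < 1 → ∀ A : ℤ, 2 ≤ A →
  (∃ E : Set (Sym2 (ℤ × ℤ) → Bool), MeasurableSet E ∧ 0 < mu p hp E ∧ ∀ ω ∈ E, Qs A 1 (og ω)) →
  ∃ E : Set (Sym2 (ℤ × ℤ) → Bool), MeasurableSet E ∧ 0 < mu p hp E ∧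
    ∀ ω ∈ E, Qs A 1 (og ω) ∧ Qs A (-1) (og ω) ∧ E0 A (og ω)

/-- UC-C7a: open circuits at all scales. -/
def S_C7a : Prop := ∀ (p : NNReal) (hp : p ≤ 1), (1 / 2 : ℝ) < p →
  ∃ K c : ℝ, 0 < K ∧ 0 < c ∧ ∀ (x : ℤ × ℤ) (m : ℕ), 1 ≤ m →
    ∃ E : Set (Sym2 (ℤ × ℤ) → Bool), MeasurableSet E ∧
      1 - K * Real.exp (-c * m) ≤ (mu p hp).real E ∧ ∀ ω ∈ E,
      (∃ u ∈ Bx x m, u ∈ InfV ω) ∧
      ∀ u ∈ Bx x m, (∃ v ∈ Far x (2 * m), (og ω).Reachable u v) →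
        u ∈ InfV ω ∧ ∀ u' ∈ Bx x m, (∃ v ∈ Far x (2 * m), (og ω).Reachable u' v) →
          (og ω).Reachable u u'

/-- UC-C7b: a.s. existence and uniqueness of the infinite cluster (uses UC-C7a). -/
def S_C7b : Prop := ∀ (p : NNReal) (hp : p ≤ 1), (1 / 2 : ℝ) < p →
  (∀ᵐ ω ∂(mu p hp), (InfV ω).Nonempty ∧ ∀ u ∈ InfV ω, ∀ v ∈ InfV ω, (og ω).Reachable u v) ∧
  ∃ θ : ℝ, 0 < θ ∧ ∀ (x : ℤ × ℤ) (n : ℕ), θ ≤ (mu p hp).real (armE x n)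

/-- UC-C8: density of the infinite cluster along sets of exponential size (uses UC-C7a, UC-C7b). -/
def S_C8 : Prop := ∀ (p : NNReal) (hp : p ≤ 1), (1 / 2 : ℝ) < p →
  ∃ θ : ℝ, 0 < θ ∧ ∀ (S : ℕ → Finset (ℤ × ℤ)) (c0 : ℕ),
    (∀ k, 2 ^ k ≤ (S k).card ∧ (S k).card ≤ 2 ^ (c0 * (k + 1))) →
    ∀ᵐ ω ∂(mu p hp), ∀ᶠ k in Filter.atTop,
      θ * ((S k).card : ℝ) ≤ ((↑(S k) ∩ InfV ω : Set (ℤ × ℤ)).ncard : ℝ)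

end Pool.Agent.W829.UC
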