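import Pool.Agent.W829.UC.Defs

/-!
# MP_566bac_pr: statement of UC-C9
-/

set_option autoImplicit false
set_option linter.all false

open MeasureTheory Set
open Pool.Agent.H978R2

namespace Pool.Agent.W829.UC

/-- translated configuration -/
def shiftC (t : ℤ × ℤ) (ω : Sym2 (ℤ × ℤ) → Bool) : Sym2 (ℤ × ℤ) → Bool :=
  fun e => ω (Sym2.map (fun x => x + t) e)

/-- UC-C9: almost surely some translate of the configuration is in a given set of positive
probability. -/
def S_C9 : Prop := ∀ (p : NNReal) (hp : p ≤ 1) (E : Set (Sym2 (ℤ × ℤ) → Bool)),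
  MeasurableSet E → 0 < mu p hp E → ∀ᵐ ω ∂(mu p hp), ∃ t : ℤ × ℤ, shiftC t ω ∈ E

end Pool.Agent.W829.UC
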