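import Pool.Agent.W829.UC.Stmts

set_option autoImplicit false
set_option linter.all false

open MeasureTheory Set
open Pool.Agent.H978R2

namespace Pool.Agent.W829.UC.A5

lemma loc_fin {G : SimpleGraph (ℤ × ℤ)} (hG : G ≤ lat) (x : ℤ × ℤ) : {y | G.Adj x y}.Finite := by
  refine (Rc_finite (x.1 - 1) (x.1 + 1) (x.2 - 1) (x.2 + 1)).subset fun y hy => ?_
  have h := lat_adj.1 (hG hy)
  simp only [Rc, Set.mem_setOf_eq]
  omega

lemma mem_nb {x y : ℤ × ℤ} (h : lat.Adj x y) : y ∈ nb x := by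
  have h := lat_adj.1 h
  unfold nb
  simp only [Finset.mem_insert, Finset.mem_singleton]
  rcases h with ⟨h1, h2 | h2⟩ | ⟨h1, h2 | h2⟩
  · right; right; right; exact Prod.ext (by simp; omega) (by simp; omega)
  · right; right; left; exact Prod.ext (by simp; omega) (by simp; omega)
  · right; left; exact Prod.ext (by simp; omega) (by simp; omega)
  · left; exact Prod.ext (by simp; omega) (by simp; omega)

lemma not_mem_nb (x : ℤ × ℤ) : x ∉ nb x := by
  unfold nb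
  simp only [Finset.mem_insert, Finset.mem_singleton, Prod.ext_iff]
  omega

lemma res_adj {G : SimpleGraph (ℤ × ℤ)} {C : Set (ℤ × ℤ)} (hC : InfComp G C) {x y : ℤ × ℤ}
    (hx : x ∈ C) : (res G C).Adj x y ↔ G.Adj x y :=
  ⟨fun h => h.1, fun h => ⟨h, hx, (hC.2 x hx y).1 h.reachable⟩⟩

open Classical in
lemma cst_res {G : SimpleGraph (ℤ × ℤ)} {C : Set (ℤ × ℤ)} (hC : InfComp G C) (U : Set (ℤ × ℤ))
    (W : Finset (ℤ × ℤ)) : cst (res G C) U W = cst G U (W.filter (fun x => x ∈ C)) := by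
  unfold cst
  congr 1
  ext x
  simp only [Finset.mem_filter]
  constructor
  · rintro ⟨h1, y, h2, h3, h4⟩
    exact ⟨⟨h1, h3.2.1⟩, y, h2, h3.1, fun h => h4 h.1⟩
  · rintro ⟨⟨h1, h2⟩, y, h3, h4, h5⟩
    have hy : y ∈ C := (hC.2 x h2 y).1 h4.reachable
    exact ⟨h1, y, h3, ⟨h4, h2, hy⟩, fun h => h5 ⟨h, hy⟩⟩

lemma chain_mem {G : SimpleGraph (ℤ × ℤ)} {C : Set (ℤ × ℤ)} (a : ℤ × ℤ) (L : List (ℤ × ℤ))
    (hL : L ≠ []) (h : (a :: L).IsChain (res G C).Adj) : a ∈ C ∧ ∀ v ∈ L, v ∈ C := by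
  induction L generalizing a with
  | nil => exact absurd rfl hL
  | cons b L ih =>
    rw [List.isChain_cons_cons] at h
    refine ⟨h.1.2.1, ?_⟩
    by_cases hL' : L = []
    · subst hL'
      intro v hv
      rw [List.mem_singleton] at hv
      rw [hv]; exact h.1.2.2
    · intro v hv
      rw [List.mem_cons] at hv
      rcases hv with rfl | hv
      · exact h.1.2.2
      · exact (ih b hL' h.2).2 v hv

open Classical in
/-- the rows -/
noncomputable def row (G : SimpleGraph (ℤ × ℤ)) (hG : G ≤ lat) (Z : Set (ℤ × ℤ)) (x : ℤ × ℤ) :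
    (ℤ × ℤ) →₀ ℝ :=
  Finsupp.onFinset (insert x (nb x)) (fun y => if y ∈ Z then 0 else Em G (dg G) x y) (by
    intro y hy
    rw [Finset.mem_insert]
    by_contra hcon
    push Not at hcon
    apply hy
    have h1 : Em G (dg G) x y = 0 := by
      unfold Em
      rw [if_neg (Ne.symm hcon.1), if_neg (fun h => hcon.2 (mem_nb (hG h)))]
    simp only [h1, ite_self])

lemma row_apply (G : SimpleGraph (ℤ × ℤ)) (hG : G ≤ lat) (Z : Set (ℤ × ℤ)) (x y : ℤ × ℤ)
    (hy : y ∉ Z) : row G hG Z x y = Em G (dg G) x y := by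
  unfold row
  rw [Finsupp.onFinset_apply, if_neg hy]

lemma row_supp (G : SimpleGraph (ℤ × ℤ)) (hG : G ≤ lat) (Z : Set (ℤ × ℤ)) (x y : ℤ × ℤ)
    (hy : y ∈ (row G hG Z x).support) : y ∉ Z ∧ (y = x ∨ G.Adj x y) := by
  rw [Finsupp.mem_support_iff] at hy
  unfold row at hy
  rw [Finsupp.onFinset_apply] at hy
  by_cases hZ : y ∈ Z
  · rw [if_pos hZ] at hy; exact absurd rfl hy
  · refine ⟨hZ, ?_⟩
    by_contra hcon
    push Not at hcon
    rw [if_neg hZ] at hy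
    unfold Em at hy
    rw [if_neg (Ne.symm hcon.1), if_neg hcon.2] at hy
    exact absurd rfl hy

/-- solutions of the row system are harmonic -/
lemma harm_of_rows (G : SimpleGraph (ℤ × ℤ)) (hG : G ≤ lat) (Z : Set (ℤ × ℤ)) (h0 h : ℤ × ℤ → ℝ)
    (hZ : ∀ y ∈ Z, h y = 0) (hZ' : ∀ y, y ∉ Z → h y = h0 y) (x : ℤ × ℤ)
    (hx : (row G hG Z x).sum (fun y c => c * h0 y) = 0) : HarmAt G h x := by
  classical
  have h1 : (row G hG Z x).sum (fun y c => c * h0 y) =
      ∑ y ∈ insert x (nb x), row G hG Z x y * h0 y := by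
    rw [Finsupp.sum]
    refine Finset.sum_subset ?_ ?_
    · unfold row
      exact Finsupp.support_onFinset_subset
    · intro y _ hy
      rw [Finsupp.notMem_support_iff] at hy
      rw [hy, zero_mul]
  have h2 : ∑ y ∈ insert x (nb x), row G hG Z x y * h0 y =
      ∑ y ∈ insert x (nb x), Em G (dg G) x y * h y := by
    refine Finset.sum_congr rfl fun y _ => ?_
    by_cases hy : y ∈ Z
    · rw [hZ y hy, mul_zero]
      unfold row
      rw [Finsupp.onFinset_apply, if_pos hy, zero_mul]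
    · rw [row_apply G hG Z x y hy, hZ' y hy]
  rw [h1, h2, Finset.sum_insert (not_mem_nb x)] at hx
  have h3 : Em G (dg G) x x = dg G x := by unfold Em; rw [if_pos rfl]
  have h4 : ∑ y ∈ nb x, Em G (dg G) x y * h y =
      - ∑ y ∈ (nb x).filter (fun y => G.Adj x y), h y := by
    rw [Finset.sum_filter, ← Finset.sum_neg_distrib]
    refine Finset.sum_congr rfl fun y hy => ?_
    have hne : x ≠ y := fun h => not_mem_nb x (h ▸ hy)
    unfold Em
    rw [if_neg hne]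
    split_ifs <;> ring
  rw [h3, h4] at hx
  unfold HarmAt
  rw [Finset.sum_sub_distrib, Finset.sum_const, nsmul_eq_mul]
  have h5 : (((nb x).filter (fun y => G.Adj x y)).card : ℝ) = dg G x := rfl
  rw [h5]
  linarith

/-- the box as a finset -/
noncomputable def bxf (N R M : ℤ) : Finset (ℤ × ℤ) := Finset.Icc (-N) R ×ˢ Finset.Icc (-M) M

lemma mem_bxf {N R M : ℤ} {x : ℤ × ℤ} : x ∈ bxf N R M ↔ x ∈ Rc (-N) R (-M) M := by
  unfold bxf Rc
  rw [Finset.mem_product, Finset.mem_Icc, Finset.mem_Icc]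
  rfl

/-- a large box -/
lemma exists_box (F : Finset (ℤ × ℤ)) (g : ℤ → ℤ) : ∃ N R M : ℤ, F ⊆ bxf N R M ∧ 0 ≤ M ∧
    ∀ y, -M ≤ y → y ≤ M → -N + 1 ≤ g y ∧ g y ≤ R := by
  classical
  set M : ℤ := ∑ x ∈ F, |x.2| with hM
  set B : ℤ := ∑ x ∈ F, |x.1| + ∑ y ∈ Finset.Icc (-M) M, |g y| + 1 with hB
  have h1 : 0 ≤ ∑ x ∈ F, |x.1| := Finset.sum_nonneg fun _ _ => abs_nonneg _
  have h2 : 0 ≤ ∑ y ∈ Finset.Icc (-M) M, |g y| := Finset.sum_nonneg fun _ _ => abs_nonneg _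
  refine ⟨B, B, M, fun x hx => ?_, Finset.sum_nonneg fun _ _ => abs_nonneg _, fun y hy1 hy2 => ?_⟩
  · have h3 : |x.1| ≤ ∑ x ∈ F, |x.1| :=
      Finset.single_le_sum (f := fun x : ℤ × ℤ => |x.1|) (fun _ _ => abs_nonneg _) hx
    have h4 : |x.2| ≤ M :=
      Finset.single_le_sum (f := fun x : ℤ × ℤ => |x.2|) (fun _ _ => abs_nonneg _) hx
    rw [mem_bxf]
    have h5 := abs_le.1 h4
    have h6 := abs_le.1 (le_refl |x.1|)
    refine ⟨⟨by omega, by omega⟩, h5⟩
  · have h3 : |g y| ≤ ∑ y ∈ Finset.Icc (-M) M, |g y| :=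
      Finset.single_le_sum (f := fun y : ℤ => |g y|) (fun _ _ => abs_nonneg _)
        (Finset.mem_Icc.2 ⟨hy1, hy2⟩)
    have h6 := abs_le.1 (le_refl |g y|)
    omega

/-- an outside vertex has at most one neighbour in the box -/
lemma exit_unique {N R M : ℤ} {y x x' : ℤ × ℤ} (hy : y ∉ bxf N R M) (hx : x ∈ bxf N R M)
    (hx' : x' ∈ bxf N R M) (h : lat.Adj x y) (h' : lat.Adj x' y) : x = x' := by
  rw [mem_bxf] at hy hx hx'
  have h := lat_adj.1 h
  have h' := lat_adj.1 h'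
  simp only [Rc, Set.mem_setOf_eq] at hy hx hx'
  refine Prod.ext ?_ ?_ <;> omega

/-- the key step: `e_z` is not in the row space -/
theorem not_in_span (hA1 : S_A1) (hA2 : S_A2) (hA3 : S_A3) (hA4 : S_A4) (hA5a : S_A5a)
    (G : SimpleGraph (ℤ × ℤ)) (C : Set (ℤ × ℤ)) (hG : G ≤ lat) (hC : InfComp G C)
    (g : ℤ → ℤ) (y0 : ℤ) (hadm : Adm (Function.update g y0 (g y0 - 1))) (hz : (g y0, y0) ∈ C)
    (hcl : (g y0, y0) ∉ Cl G (Rg g)) :
    Finsupp.single ((g y0, y0) : ℤ × ℤ) (1 : ℝ) ∉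
      Submodule.span ℝ (row G hG (Rg g) '' C) := by
  classical
  intro hspan
  set z : ℤ × ℤ := (g y0, y0) with hzdef
  set g2 : ℤ → ℤ := Function.update g y0 (g y0 - 1) with hg2
  have hzZ : z ∉ Rg g := by
    show ¬ (g y0 < g y0); exact lt_irrefl _
  -- the region with z added
  have hR2 : ∀ x, x ∈ Rg g2 ↔ (x ∈ Rg g ∨ x = z) := by
    intro x
    simp only [Rg, Set.mem_setOf_eq, hg2]
    by_cases h : x.2 = y0
    · rw [h, Function.update_self]
      constructor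
      · intro h1
        by_cases h2 : g y0 < x.1
        · exact Or.inl h2
        · right; exact Prod.ext (by simp [hzdef]; omega) (by simp [hzdef]; exact h)
      · rintro (h1 | h1)
        · omega
        · rw [h1]; simp [hzdef]
    · rw [Function.update_of_ne h]
      constructor
      · exact Or.inl
      · rintro (h1 | h1)
        · exact h1
        · rw [h1] at h; exact absurd rfl h
  -- finite set of rows
  obtain ⟨F, hFC, hF⟩ : ∃ F : Finset (ℤ × ℤ), (↑F : Set (ℤ × ℤ)) ⊆ C ∧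
      Finsupp.single z (1 : ℝ) ∈ Submodule.span ℝ (row G hG (Rg g) '' ↑F) := by
    obtain ⟨T, hT1, hT2⟩ := Submodule.mem_span_finite_of_mem_span hspan
    obtain ⟨F, hF1, hF2⟩ := Finset.subset_set_image_iff.1 hT1
    refine ⟨F, hF1, ?_⟩
    rw [← hF2, Finset.coe_image] at hT2
    exact hT2
  obtain ⟨N, R, M, hFb, hM, hgb⟩ := exists_box (insert z F) g
  set Λ := bxf N R M with hΛ
  have hzΛ : z ∈ Λ := hFb (Finset.mem_insert_self _ _)
  -- minimal cut
  set G' := res G C with hG'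
  have hG'lat : G' ≤ lat := fun x y h => hG h.1
  have hmin : ∃ W0 : Finset (ℤ × ℤ), W0 ⊆ Λ ∧ (∀ x ∈ Λ, x ∈ Rg g → x ∈ W0) ∧
      ∀ W : Finset (ℤ × ℤ), W ⊆ Λ → (∀ x ∈ Λ, x ∈ Rg g → x ∈ W) →
        cst G' (Rg g)ᶜ W0 ≤ cst G' (Rg g)ᶜ W := by
    set P : Finset (ℤ × ℤ) → Prop := fun W => ∀ x ∈ Λ, x ∈ Rg g → x ∈ W with hP
    haveI : DecidablePred P := Classical.decPred P
    have hne : (Λ.powerset.filter P).Nonempty :=
      ⟨Λ, Finset.mem_filter.2 ⟨Finset.mem_powerset.2 (le_refl _), fun x hx _ => hx⟩⟩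
    obtain ⟨W0, hW0, hW0'⟩ := Finset.exists_min_image _ (fun W => cst G' (Rg g)ᶜ W) hne
    have hW0 := Finset.mem_filter.1 hW0
    refine ⟨W0, Finset.mem_powerset.1 hW0.1, hW0.2, fun W h1 h2 => hW0' W ?_⟩
    exact Finset.mem_filter.2 ⟨Finset.mem_powerset.2 h1, h2⟩
  obtain ⟨W0, hW01, hW02, hW03⟩ := hmin
  set X := cst G' (Rg g)ᶜ W0 with hX
  -- sets containing z cost more
  have hcost : ∀ W : Finset (ℤ × ℤ), W ⊆ Λ → (∀ x ∈ Λ, x ∈ Rg g → x ∈ W) → z ∈ W →
      X + 1 ≤ cst G' (Rg g)ᶜ W := by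
    intro W h1 h2 h3
    by_contra hlt
    push Not at hlt
    have hle : cst G' (Rg g)ᶜ W ≤ X := by omega
    apply hcl
    refine ⟨W.filter (fun x => x ∈ C), Finset.mem_filter.2 ⟨h3, hz⟩, ?_⟩
    intro W' hW' hW'2
    have e1 : cst G' (Rg g)ᶜ W = cst G (Rg g)ᶜ (W.filter (fun x => x ∈ C)) := cst_res hC _ _
    have e2 : cst G' (Rg g)ᶜ (W' ∪ W.filter (fun x => x ∉ C)) = cst G (Rg g)ᶜ W' := by
      rw [hG', cst_res hC]
      congr 1
      ext x
      simp only [Finset.mem_filter, Finset.mem_union]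
      constructor
      · rintro ⟨h | h, h'⟩
        · exact h
        · exact absurd h' h.2
      · intro h
        exact ⟨Or.inl h, (Finset.mem_filter.1 (hW' h)).2⟩
    rw [← e1, ← e2]
    refine hle.trans (hW03 _ ?_ ?_)
    · intro x hx
      rw [Finset.mem_union] at hx
      rcases hx with hx | hx
      · exact h1 (Finset.mem_filter.1 (hW' hx)).1
      · exact h1 (Finset.mem_filter.1 hx).1
    · intro x hx hxg
      rw [Finset.mem_union, Finset.mem_filter]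
      by_cases hxC : x ∈ C
      · exact Or.inl (hW'2 x (Finset.mem_filter.2 ⟨h2 x hx hxg, hxC⟩) hxg)
      · exact Or.inr ⟨h2 x hx hxg, hxC⟩
  -- Menger
  set S : Finset (ℤ × ℤ) := Λ.filter (fun x => x ∈ Rg g2) with hS
  obtain ⟨Xs, Ts, hXinj, hTinj, hXS, hTout, hPS⟩ := hA3 (ℤ × ℤ) G' Λ S (Rg g)
    (Finset.filter_subset _ _)
    (fun x hx hxg => Finset.mem_filter.2 ⟨hx, (hR2 x).2 (Or.inl hxg)⟩)
    (fun x _ => loc_fin hG'lat x)
    (fun y hy x hx x' hx' h h' => exit_unique hy hx hx' (hG'lat h) (hG'lat h'))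
    (X + 1)
    (fun W h1 h2 => hcost W h2
      (fun x hx hxg => h1 (Finset.mem_filter.2 ⟨hx, (hR2 x).2 (Or.inl hxg)⟩))
      (h1 (Finset.mem_filter.2 ⟨hzΛ, (hR2 z).2 (Or.inr rfl)⟩)))
  -- the set J'
  set J : Finset (ℤ × ℤ) := (Λ \ S).filter (fun x => x ∈ C) with hJ
  have hPS1 : PS G (↑J : Set (ℤ × ℤ)) Xs Ts 1 ∧ ∀ i, Xs i ∈ C := by
    obtain ⟨l, hl1, hl2, hl3⟩ := hPS
    have hmem : ∀ i, Xs i ∈ C ∧ ∀ v ∈ l i ++ [Ts ((1 : Equiv.Perm (Fin (X + 1))) i)], v ∈ C :=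
      fun i => chain_mem _ _ (by simp) (hl1 i)
    refine ⟨⟨l, fun i => ?_, fun i => ⟨(hl2 i).1, fun v hv => ?_⟩, hl3⟩, fun i => (hmem i).1⟩
    · exact (hl1 i).imp fun a b hab => hab.1
    · rw [Finset.mem_coe, Finset.mem_filter]
      exact ⟨(hl2 i).2 v hv, (hmem i).2 v (List.mem_append_left _ hv)⟩
  obtain ⟨hPS1, hXC⟩ := hPS1
  have hJmem : ∀ x, x ∈ J ↔ (x ∈ Λ ∧ x ∉ Rg g2) ∧ x ∈ C := by
    intro x
    rw [hJ, Finset.mem_filter, Finset.mem_sdiff, hS, Finset.mem_filter]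
    tauto
  have hTg2 : ∀ i, Ts i ∉ Rg g2 := by
    intro i hi
    rcases (hR2 _).1 hi with h | h
    · exact (hTout i).2 h
    · exact (hTout i).1 (h ▸ hzΛ)
  have hfits : Fits g2 N R M := by
    refine ⟨hM, fun y h1 h2 => ?_⟩
    have h3 := hgb y h1 h2
    by_cases h : y = y0
    · subst h
      rw [hg2, Function.update_self]; omega
    · rw [hg2, Function.update_of_ne h]; omega
  obtain ⟨X', T', hX'inj, hT'inj, hrX, hrT, hPS2, hPS3⟩ := hA4 g2 hadm N R M hfits G hG (↑J)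
    (fun x hx => by
      rw [Finset.mem_coe, hJmem] at hx
      exact ⟨mem_bxf.1 hx.1.1, hx.1.2⟩) (X + 1) Xs Ts hXinj hTinj
    (fun i => by
      have := hXS i
      rw [hS, Finset.mem_filter] at this
      exact ⟨this.2, mem_bxf.1 this.1⟩)
    (fun i => ⟨hTg2 i, fun h => (hTout i).1 (mem_bxf.2 h)⟩) hPS1
  have hX' : ∀ i, X' i ∈ S ∧ X' i ∈ C := by
    intro i
    have : X' i ∈ Set.range X' := ⟨i, rfl⟩
    rw [hrX] at this
    obtain ⟨j, hj⟩ := this
    rw [← hj]; exact ⟨hXS j, hXC j⟩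
  have hT' : ∀ i, T' i ∉ Λ ∧ T' i ∉ Rg g := by
    intro i
    have : T' i ∈ Set.range T' := ⟨i, rfl⟩
    rw [hrT] at this
    obtain ⟨j, hj⟩ := this
    rw [← hj]; exact hTout j
  have hXJ : ∀ i, X' i ∉ J := by
    intro i hi
    rw [hJmem] at hi
    have := (hX' i).1
    rw [hS, Finset.mem_filter] at this
    exact hi.1.2 this.2
  have hTJ : ∀ i, T' i ∉ J := by
    intro i hi
    rw [hJmem] at hi
    exact (hT' i).1 hi.1.1
  have hXT : ∀ i j, X' i ≠ T' j := by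
    intro i j hij
    apply (hT' j).1
    rw [← hij]
    exact (Finset.mem_filter.1 (hX' i).1).1
  have hreach : ∀ x ∈ C, ∀ y ∈ C, G.Reachable x y := fun x hx y hy => (hC.2 x hx y).2 hy
  have hdet := hA1 (ℤ × ℤ) G (dg G) J
    (fun K hK => hA2 G C hG hC.1 hreach K fun x hx => ((hJmem x).1 (hK hx)).2)
    (X + 1) X' T' hX'inj hT'inj hXJ hTJ hXT hPS3 hPS2
  -- the rank count
  set P1 : Finset (ℤ × ℤ) := (W0.filter (fun x => x ∈ C)).filter
    (fun x => ¬ ∃ y, y ∈ (Rg g)ᶜ ∧ G'.Adj x y ∧ y ∉ W0) with hP1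
  set P2 : Finset (ℤ × ℤ) := (W0.filter (fun x => ∃ y, y ∈ (Rg g)ᶜ ∧ G'.Adj x y ∧ y ∉ W0)) ∪
    ((Λ \ W0).filter (fun x => x ∈ C)) with hP2
  set Q : Finset (ℤ × ℤ) := (W0.filter (fun x => x ∈ C)).filter (fun x => x ∉ Rg g) with hQ
  have hz2 : z ∉ W0 := by
    intro h
    have := hcost W0 hW01 hW02 h
    omega
  have hJcard : J.card + 1 = (Λ.filter (fun x => x ∈ C ∧ x ∉ Rg g)).card := by
    have : Λ.filter (fun x => x ∈ C ∧ x ∉ Rg g) = insert z J := by
      ext x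
      rw [Finset.mem_filter, Finset.mem_insert, hJmem]
      constructor
      · rintro ⟨h1, h2, h3⟩
        by_cases hxz : x = z
        · exact Or.inl hxz
        · right
          refine ⟨⟨h1, fun h => ?_⟩, h2⟩
          rcases (hR2 x).1 h with h4 | h4
          · exact h3 h4
          · exact hxz h4
      · rintro (rfl | ⟨⟨h1, h2⟩, h3⟩)
        · exact ⟨hzΛ, hz, hzZ⟩
        · exact ⟨h1, h3, fun h => h2 ((hR2 x).2 (Or.inl h))⟩
    rw [this, Finset.card_insert_of_notMem]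
    rw [hJmem]
    intro h
    exact h.1.2 ((hR2 z).2 (Or.inr rfl))
  have hcount : Q.card + P2.card ≤ Fintype.card (↥J ⊕ Fin (X + 1)) := by
    rw [Fintype.card_sum, Fintype.card_coe, Fintype.card_fin]
    have h1 : P2.card ≤ X + ((Λ \ W0).filter (fun x => x ∈ C)).card := by
      rw [hP2]
      refine (Finset.card_union_le _ _).trans ?_
      have : (W0.filter (fun x => ∃ y, y ∈ (Rg g)ᶜ ∧ G'.Adj x y ∧ y ∉ W0)).card = X := by
        rw [hX]; unfold cst; congr 1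
      omega
    have h2 : Q.card + ((Λ \ W0).filter (fun x => x ∈ C)).card ≤
        (Λ.filter (fun x => x ∈ C ∧ x ∉ Rg g)).card := by
      rw [← Finset.card_union_of_disjoint]
      · apply Finset.card_le_card
        intro x hx
        rw [Finset.mem_union, hQ, Finset.mem_filter, Finset.mem_filter, Finset.mem_filter,
          Finset.mem_sdiff] at hx
        rw [Finset.mem_filter]
        rcases hx with ⟨⟨h1, h2⟩, h3⟩ | ⟨⟨h1, h2⟩, h3⟩
        · exact ⟨hW01 h1, h2, h3⟩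
        · exact ⟨h1, h3, fun h => h2 (hW02 x h1 h)⟩
      · rw [Finset.disjoint_left]
        intro x hx hx'
        rw [hQ, Finset.mem_filter, Finset.mem_filter] at hx
        rw [Finset.mem_filter, Finset.mem_sdiff] at hx'
        exact hx'.1.2 hx.1.1
    omega
  have hcover : ∀ x, x ∈ Λ → x ∈ C → x ∈ P1 ∪ P2 := by
    intro x h1 h2
    rw [Finset.mem_union, hP1, hP2, Finset.mem_union, Finset.mem_filter, Finset.mem_filter,
      Finset.mem_filter, Finset.mem_filter, Finset.mem_sdiff]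
    by_cases h3 : x ∈ W0
    · by_cases h4 : ∃ y, y ∈ (Rg g)ᶜ ∧ G'.Adj x y ∧ y ∉ W0
      · exact Or.inr (Or.inl ⟨h3, h4⟩)
      · exact Or.inl ⟨⟨h3, h2⟩, h4⟩
    · exact Or.inr (Or.inr ⟨⟨h1, h3⟩, h2⟩)
  refine hA5a (ℤ × ℤ) (row G hG (Rg g)) P1 P2 Q z ?_ (↥J ⊕ Fin (X + 1))
    (Sum.elim (fun x : J => (x : ℤ × ℤ)) X') (Sum.elim (fun x : J => (x : ℤ × ℤ)) T') ?_ ?_
    hcount ?_ ?_
  · -- rows of P1 are supported in Q
    intro x hx y hy
    rw [hP1, Finset.mem_filter, Finset.mem_filter] at hx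
    obtain ⟨⟨hx1, hx2⟩, hx3⟩ := hx
    obtain ⟨h1, h2⟩ := row_supp G hG (Rg g) x y hy
    rw [hQ, Finset.mem_filter, Finset.mem_filter]
    rcases h2 with rfl | h2
    · exact ⟨⟨hx1, hx2⟩, h1⟩
    · have hyC : y ∈ C := (hC.2 x hx2 y).1 h2.reachable
      refine ⟨⟨?_, hyC⟩, h1⟩
      by_contra hy0
      exact hx3 ⟨y, h1, ⟨h2, hx2, hyC⟩, hy0⟩
  · rintro (x | i)
    · have := (hJmem x).1 x.2
      exact hcover _ this.1.1 this.2
    · exact hcover _ (Finset.mem_filter.1 (hX' i).1).1 (hX' i).2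
  · rintro (x | i)
    · intro h
      have := (hJmem x).1 x.2
      exact this.1.2 ((hR2 _).2 (Or.inr h))
    · intro h
      exact (hT' i).1 (by rw [show T' i = z from h]; exact hzΛ)
  · have heq : (Matrix.of fun (a b : ↥J ⊕ Fin (X + 1)) =>
        row G hG (Rg g) (Sum.elim (fun x : J => (x : ℤ × ℤ)) X' a)
          (Sum.elim (fun x : J => (x : ℤ × ℤ)) T' b)) =
        (Matrix.of fun (a b : ↥J ⊕ Fin (X + 1)) =>
        Em G (dg G) (Sum.elim (fun x : J => (x : ℤ × ℤ)) X' a)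
          (Sum.elim (fun x : J => (x : ℤ × ℤ)) T' b)) := by
      ext a b
      simp only [Matrix.of_apply]
      apply row_apply
      rcases b with x | i
      · have := (hJmem x).1 x.2
        exact fun h => this.1.2 ((hR2 _).2 (Or.inl h))
      · exact (hT' i).2
    rw [heq]
    intro h0
    rw [h0, mul_zero] at hdet
    exact lt_irrefl _ hdet
  · refine Submodule.span_mono (Set.image_mono ?_) hF
    intro x hx
    rw [Finset.mem_coe] at hx ⊢
    exact hcover x (hFb (Finset.mem_insert_of_mem hx)) (hFC hx)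

theorem main : S_A1 → S_A2 → S_A3 → S_A4 → S_A5a → S_A5b → S_A5 := by
  classical
  intro hA1 hA2 hA3 hA4 hA5a hA5b G C hG hC g y0 hadm hz hcl
  obtain ⟨h0, hh1, hh2⟩ := hA5b (ℤ × ℤ) C (row G hG (Rg g)) (g y0, y0)
    (not_in_span hA1 hA2 hA3 hA4 hA5a G C hG hC g y0 hadm hz hcl)
  refine ⟨fun y => if y ∈ Rg g then 0 else h0 y, fun x hx => ?_, fun x hx => if_pos hx, ?_⟩
  · exact harm_of_rows G hG (Rg g) h0 _ (fun y hy => if_pos hy) (fun y hy => if_neg hy) x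
      (hh2 x hx)
  · have : ((g y0, y0) : ℤ × ℤ) ∉ Rg g := by
      show ¬ (g y0 < g y0); exact lt_irrefl _
    show (if ((g y0, y0) : ℤ × ℤ) ∈ Rg g then (0 : ℝ) else h0 (g y0, y0)) = 1
    rw [if_neg this, hh1]

end Pool.Agent.W829.UC.A5
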