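import Pool.Agent.W829.UC.Stmts

set_option autoImplicit false
set_option linter.all false

open MeasureTheory Set
open Pool.Agent.H978R2

namespace Pool.Agent.W829.UC.A5a

lemma key {E F I : Type*} [AddCommGroup E] [Module ℝ E] [AddCommGroup F] [Module ℝ F]
    [FiniteDimensional ℝ F] [Fintype I] (V0 : Submodule ℝ E) [FiniteDimensional ℝ V0]
    (φ : E →ₗ[ℝ] F) (v : I → E) (hv : ∀ a, v a ∈ V0) (hli : LinearIndependent ℝ (fun a => φ (v a)))
    (z : E) (hz : z ∈ V0) (hz0 : z ≠ 0) (hφ : φ z = 0) :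
    Fintype.card I + 1 ≤ Module.finrank ℝ V0 := by
  set ψ : V0 →ₗ[ℝ] F := φ ∘ₗ V0.subtype with hψ
  have hli2 : LinearIndependent ℝ
      (fun a => (⟨φ (v a), ⟨⟨v a, hv a⟩, rfl⟩⟩ : LinearMap.range ψ)) :=
    LinearIndependent.of_comp (LinearMap.range ψ).subtype hli
  have hge : Fintype.card I ≤ Module.finrank ℝ (LinearMap.range ψ) :=
    hli2.fintype_card_le_finrank
  have hker : 0 < Module.finrank ℝ (LinearMap.ker ψ) := by
    haveI : Nontrivial (LinearMap.ker ψ) := by
      refine ⟨⟨⟨⟨z, hz⟩, hφ⟩, 0, ?_⟩⟩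
      intro h
      apply hz0
      have := congrArg (fun v : LinearMap.ker ψ => ((v : V0) : E)) h
      simpa using this
    exact Module.finrank_pos (R := ℝ) (M := LinearMap.ker ψ)
  have hrn := LinearMap.finrank_range_add_finrank_ker ψ
  omega

theorem main : S_A5a := by
  classical
  intro α _ r P1 P2 Q z hP1 I _ _ ρ κ hρ hκ hcard hdet hz
  set V0 := Submodule.span ℝ (r '' (↑(P1 ∪ P2) : Set α)) with hV0
  -- a finite spanning set
  set B : Finset (α →₀ ℝ) := Q.image (fun y => Finsupp.single y (1 : ℝ)) ∪ P2.image r with hB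
  have hV0B : V0 ≤ Submodule.span ℝ (↑B : Set (α →₀ ℝ)) := by
    rw [hV0, Submodule.span_le]
    rintro _ ⟨x, hx, rfl⟩
    rw [Finset.mem_coe, Finset.mem_union] at hx
    rcases hx with hx | hx
    · have h2 : r x = ∑ y ∈ (r x).support, (r x y) • Finsupp.single y (1 : ℝ) := by
        conv_lhs => rw [← Finsupp.sum_single (r x)]
        rw [Finsupp.sum]
        exact Finset.sum_congr rfl fun y _ => by
          rw [Finsupp.smul_single, smul_eq_mul, mul_one]
      show r x ∈ Submodule.span ℝ (↑B : Set (α →₀ ℝ))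
      rw [h2]
      refine Submodule.sum_mem _ fun y hy => Submodule.smul_mem _ _ (Submodule.subset_span ?_)
      rw [Finset.mem_coe, hB, Finset.mem_union, Finset.mem_image]
      exact Or.inl ⟨y, hP1 x hx hy, rfl⟩
    · refine Submodule.subset_span ?_
      rw [Finset.mem_coe, hB, Finset.mem_union, Finset.mem_image, Finset.mem_image]
      exact Or.inr ⟨x, hx, rfl⟩
  haveI hfd : FiniteDimensional ℝ (Submodule.span ℝ (↑B : Set (α →₀ ℝ))) :=
    FiniteDimensional.span_finset ℝ B
  haveI hfd0 : FiniteDimensional ℝ V0 := Submodule.finiteDimensional_of_le hV0B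
  have hdim : Module.finrank ℝ V0 ≤ Q.card + P2.card := by
    calc Module.finrank ℝ V0 ≤ Module.finrank ℝ (Submodule.span ℝ (↑B : Set (α →₀ ℝ))) :=
          Submodule.finrank_mono hV0B
      _ ≤ B.card := finrank_span_finset_le_card B
      _ ≤ (Q.image (fun y => Finsupp.single y (1 : ℝ))).card + (P2.image r).card :=
          Finset.card_union_le _ _
      _ ≤ Q.card + P2.card := Nat.add_le_add Finset.card_image_le Finset.card_image_le
  -- evaluation map
  set φ : (α →₀ ℝ) →ₗ[ℝ] (I → ℝ) := LinearMap.pi fun b => Finsupp.lapply (κ b) with hφ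
  have hmem : ∀ a, r (ρ a) ∈ V0 := fun a =>
    Submodule.subset_span ⟨ρ a, by rw [Finset.mem_coe]; exact hρ a, rfl⟩
  have hli : LinearIndependent ℝ (fun a => φ (r (ρ a))) := by
    have h1 : LinearIndependent ℝ (Matrix.of fun (a b : I) => r (ρ a) (κ b)).row := by
      rw [Matrix.linearIndependent_rows_iff_isUnit, Matrix.isUnit_iff_isUnit_det]
      exact isUnit_iff_ne_zero.2 hdet
    exact h1
  have hfin := key V0 φ (fun a => r (ρ a)) hmem hli (Finsupp.single z 1) hz (by
      intro h; exact one_ne_zero (α := ℝ) (Finsupp.single_eq_zero.1 h)) (by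
      ext b
      show (Finsupp.single z (1 : ℝ)) (κ b) = 0
      rw [Finsupp.single_apply, if_neg (fun h => hκ b h.symm)])
  omega

end Pool.Agent.W829.UC.A5a
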