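import Pool.Agent.W829.UC.Stmts

set_option autoImplicit false
set_option linter.all false

open MeasureTheory Set
open Pool.Agent.H978R2

namespace Pool.Agent.W829.UC.A5b

theorem main : S_A5b := by
  intro α P r z hz
  obtain ⟨f, hf1, hf2⟩ := Submodule.exists_le_ker_of_notMem hz
  refine ⟨fun y => f (Finsupp.single y 1) / f (Finsupp.single z 1), div_self hf1, fun x hx => ?_⟩
  have h1 : f (r x) = 0 := hf2 (Submodule.subset_span ⟨x, hx, rfl⟩)
  have h2 : r x = (r x).sum (fun y c => Finsupp.single y c) := (Finsupp.sum_single _).symm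
  have h3 : f (r x) = (r x).sum (fun y c => c * f (Finsupp.single y 1)) := by
    conv_lhs => rw [h2]
    rw [map_finsuppSum]
    refine Finsupp.sum_congr fun y _ => ?_
    have : Finsupp.single y ((r x) y) = ((r x) y) • Finsupp.single y (1 : ℝ) := by
      rw [Finsupp.smul_single, smul_eq_mul, mul_one]
    rw [this, map_smul, smul_eq_mul]
  have h4 : (r x).sum (fun y c => c * (f (Finsupp.single y 1) / f (Finsupp.single z 1))) =
      f (r x) / f (Finsupp.single z 1) := by
    rw [h3, Finsupp.sum, Finsupp.sum, Finset.sum_div]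
    exact Finset.sum_congr rfl fun y _ => by ring
  show (r x).sum (fun y c => c * (f (Finsupp.single y 1) / f (Finsupp.single z 1))) = 0
  rw [h4, h1, zero_div]

end Pool.Agent.W829.UC.A5b
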