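import Pool.Agent.W829.UC.Stmts

set_option autoImplicit false
set_option linter.all false

open MeasureTheory Set
open Pool.Agent.H978R2

namespace Pool.Agent.W829.UC.B2

/-- the profiles -/
def gk (A : ℤ) (k : ℤ) (y : ℤ) : ℤ := (if y = 0 then -1 else A * (|y| - 1)) - k

lemma Rg_gk_zero (A : ℤ) (hA : 2 ≤ A) : Rg (gk A 0) = Zw A := by
  ext x
  simp only [Rg, gk, Zw, Set.mem_setOf_eq, sub_zero]
  by_cases h : x.2 = 0
  · rw [if_pos h, h, abs_zero]
    constructor
    · intro h1; exact ⟨by omega, by nlinarith⟩
    · rintro ⟨h1, h2⟩; omega
  · rw [if_neg h]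
    have h1 : 1 ≤ |x.2| := Int.one_le_abs h
    constructor
    · intro h2; exact ⟨by nlinarith, h2⟩
    · rintro ⟨_, h2⟩; exact h2

lemma loc_fin {G : SimpleGraph (ℤ × ℤ)} (hG : G ≤ lat) (x : ℤ × ℤ) : {y | G.Adj x y}.Finite := by
  refine (Rc_finite (x.1 - 1) (x.1 + 1) (x.2 - 1) (x.2 + 1)).subset fun y hy => ?_
  have h := lat_adj.1 (hG hy)
  simp only [Rc, Set.mem_setOf_eq]
  omega

theorem main : S_B1 → S_B2 := by
  classical
  intro hB1 A hA G hG v hv
  obtain ⟨_, _, _, hself, _, _, htr, _⟩ := hB1 (ℤ × ℤ) G
  have htr := htr (loc_fin hG)
  by_contra hcon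
  push Not at hcon
  -- hcon : ∀ g y0, Zw A ⊆ Rg g → Adm .. → (g y0, y0) ∈ Cl G (Rg g)
  have key : ∀ k : ℕ, Zw A ⊆ Rg (gk A k) ∧ Cl G (Rg (gk A k)) ⊆ Cl G (Zw A) := by
    intro k
    induction k with
    | zero =>
      have : Rg (gk A ((0 : ℕ) : ℤ)) = Zw A := by simpa using Rg_gk_zero A hA
      rw [this]
      exact ⟨le_refl _, le_refl _⟩
    | succ k ih =>
      obtain ⟨ih1, ih2⟩ := ih
      -- the points (g_k y, y), y ≠ 0
      have hpt : ∀ y, y ≠ 0 → (gk A k y, y) ∈ Cl G (Rg (gk A k)) := by
        intro y hy
        refine hcon (gk A k) y ih1 ?_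
        refine ⟨fun z hz => ?_, fun z hz => ?_, ?_, ?_⟩
        · by_cases h1 : z - 1 = y
          · have hzy : z ≠ y := by omega
            rw [Function.update_of_ne hzy, ← h1, Function.update_self]
            have hz1 : z ≠ 0 := by omega
            have hz2 : z - 1 ≠ 0 := by omega
            simp only [gk, if_neg hz1, if_neg hz2]
            rw [abs_of_nonneg (by omega : (0 : ℤ) ≤ z), abs_of_nonneg (by omega : (0 : ℤ) ≤ z - 1)]
            nlinarith
          · rw [Function.update_of_ne h1]
            by_cases h2 : z = y
            · subst h2
              rw [Function.update_self]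
              by_cases h3 : z = 1
              · subst h3
                simp [gk] <;> omega
              · have hz1 : z ≠ 0 := by omega
                have hz2 : z - 1 ≠ 0 := by omega
                simp only [gk, if_neg hz1, if_neg hz2]
                rw [abs_of_nonneg (by omega : (0 : ℤ) ≤ z),
                  abs_of_nonneg (by omega : (0 : ℤ) ≤ z - 1)]
                nlinarith
            · rw [Function.update_of_ne h2]
              by_cases h3 : z = 1
              · subst h3
                simp [gk] <;> omega
              · have hz1 : z ≠ 0 := by omega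
                have hz2 : z - 1 ≠ 0 := by omega
                simp only [gk, if_neg hz1, if_neg hz2]
                rw [abs_of_nonneg (by omega : (0 : ℤ) ≤ z),
                  abs_of_nonneg (by omega : (0 : ℤ) ≤ z - 1)]
                nlinarith
        · by_cases h1 : z + 1 = y
          · have hzy : z ≠ y := by omega
            rw [Function.update_of_ne hzy, ← h1, Function.update_self]
            have hz1 : z ≠ 0 := by omega
            have hz2 : z + 1 ≠ 0 := by omega
            simp only [gk, if_neg hz1, if_neg hz2]
            rw [abs_of_nonpos (by omega : z ≤ 0), abs_of_nonpos (by omega : z + 1 ≤ 0)]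
            nlinarith
          · rw [Function.update_of_ne h1]
            by_cases h2 : z = y
            · subst h2
              rw [Function.update_self]
              by_cases h3 : z = -1
              · subst h3
                simp [gk] <;> omega
              · have hz1 : z ≠ 0 := by omega
                have hz2 : z + 1 ≠ 0 := by omega
                simp only [gk, if_neg hz1, if_neg hz2]
                rw [abs_of_nonpos (by omega : z ≤ 0), abs_of_nonpos (by omega : z + 1 ≤ 0)]
                nlinarith
            · rw [Function.update_of_ne h2]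
              by_cases h3 : z = -1
              · subst h3
                simp [gk] <;> omega
              · have hz1 : z ≠ 0 := by omega
                have hz2 : z + 1 ≠ 0 := by omega
                simp only [gk, if_neg hz1, if_neg hz2]
                rw [abs_of_nonpos (by omega : z ≤ 0), abs_of_nonpos (by omega : z + 1 ≤ 0)]
                nlinarith
        · rw [Function.update_of_ne (Ne.symm hy)]
          by_cases h2 : (1 : ℤ) = y
          · subst h2; rw [Function.update_self]; simp [gk] <;> omega
          · rw [Function.update_of_ne h2]; simp [gk] <;> omega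
        · rw [Function.update_of_ne (Ne.symm hy)]
          by_cases h2 : (-1 : ℤ) = y
          · subst h2; rw [Function.update_self]; simp [gk] <;> omega
          · rw [Function.update_of_ne h2]; simp [gk] <;> omega
      -- the intermediate region
      set gb : ℤ → ℤ := fun y => if y = 0 then gk A k 0 else gk A k y - 1 with hgb
      have hsub1 : Rg (gk A k) ⊆ Rg gb := by
        intro x hx
        simp only [Rg, Set.mem_setOf_eq, hgb] at hx ⊢
        split_ifs with h
        · rw [h] at hx; exact hx
        · omega
      have hsub2 : Rg gb ⊆ Cl G (Rg (gk A k)) := by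
        intro x hx
        simp only [Rg, Set.mem_setOf_eq, hgb] at hx
        split_ifs at hx with h
        · exact hself _ (by simp only [Rg, Set.mem_setOf_eq]; rw [h]; exact hx)
        · by_cases h1 : gk A k x.2 < x.1
          · exact hself _ h1
          · have : x = (gk A k x.2, x.2) := Prod.ext (by simp; omega) rfl
            rw [this]
            exact hpt _ h
      have hcl1 : Cl G (Rg gb) ⊆ Cl G (Rg (gk A k)) := htr _ _ hsub1 hsub2
      have hupd : Function.update gb 0 (gb 0 - 1) = gk A ((k + 1 : ℕ) : ℤ) := by
        ext y
        by_cases h : y = 0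
        · subst h
          rw [Function.update_self]
          simp only [hgb, if_pos rfl, gk]
          push_cast; ring
        · rw [Function.update_of_ne h]
          simp only [hgb, if_neg h, gk]
          push_cast; ring
      have hadm : Adm (gk A ((k + 1 : ℕ) : ℤ)) := by
        refine ⟨fun z hz => ?_, fun z hz => ?_, ?_, ?_⟩
        · by_cases h3 : z = 1
          · subst h3
            simp [gk] <;> omega
          · have hz1 : z ≠ 0 := by omega
            have hz2 : z - 1 ≠ 0 := by omega
            simp only [gk, if_neg hz1, if_neg hz2]
            rw [abs_of_nonneg (by omega : (0 : ℤ) ≤ z),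
              abs_of_nonneg (by omega : (0 : ℤ) ≤ z - 1)]
            nlinarith
        · by_cases h3 : z = -1
          · subst h3
            simp [gk] <;> omega
          · have hz1 : z ≠ 0 := by omega
            have hz2 : z + 1 ≠ 0 := by omega
            simp only [gk, if_neg hz1, if_neg hz2]
            rw [abs_of_nonpos (by omega : z ≤ 0), abs_of_nonpos (by omega : z + 1 ≤ 0)]
            nlinarith
        · simp [gk] <;> omega
        · simp [gk] <;> omega
      have h0 : (gb 0, 0) ∈ Cl G (Rg gb) :=
        hcon gb 0 (ih1.trans hsub1) (by rw [hupd]; exact hadm)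
      have hsub3 : Rg (gk A k) ⊆ Rg (gk A ((k + 1 : ℕ) : ℤ)) := by
        intro x hx
        simp only [Rg, Set.mem_setOf_eq, gk] at hx ⊢
        push_cast
        omega
      have hsub4 : Rg (gk A ((k + 1 : ℕ) : ℤ)) ⊆ Cl G (Rg (gk A k)) := by
        intro x hx
        rw [← hupd] at hx
        simp only [Rg, Set.mem_setOf_eq] at hx
        by_cases h : x.2 = 0
        · rw [h, Function.update_self] at hx
          by_cases h1 : gb 0 < x.1
          · exact hsub2 (by simp only [Rg, Set.mem_setOf_eq]; rw [h]; exact h1)
          · have : x = (gb 0, 0) := Prod.ext (by simp; omega) h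
            rw [this]
            exact hcl1 h0
        · rw [Function.update_of_ne h] at hx
          exact hsub2 hx
      exact ⟨ih1.trans hsub3, (htr _ _ hsub3 hsub4).trans ih2⟩
  -- v is in the region for large k
  apply hv
  obtain ⟨k, hk⟩ : ∃ k : ℕ, gk A 0 v.2 - k < v.1 :=
    ⟨(gk A 0 v.2 - v.1 + 1).toNat, by have := Int.self_le_toNat (gk A 0 v.2 - v.1 + 1); omega⟩
  refine (key k).2 (hself _ ?_)
  simp only [Rg, Set.mem_setOf_eq, gk] at hk ⊢
  omega

end Pool.Agent.W829.UC.B2
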