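import Pool.Agent.W829.UC.UCB3a

set_option autoImplicit false
set_option linter.all false

open MeasureTheory Set
open Pool.Agent.H978R2

namespace Pool.Agent.W829.UC.B3

open Pool.Agent.W829.UC.B3a

lemma exit_step {α : Type*} {R : α → α → Prop} {K : Set α} {v y : α}
    (h : Relation.ReflTransGen R v y) (hv : v ∈ K) (hy : y ∉ K) : ∃ a b, a ∈ K ∧ b ∉ K ∧ R a b := by
  induction h with
  | refl => exact absurd hv hy
  | @tail b c _ hbc ih =>
    by_cases hb : b ∈ K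
    · exact ⟨b, c, hb, hy, hbc⟩
    · exact ih hb

open Classical in
lemma half (hB1 : S_B1) {A s : ℤ} {G : SimpleGraph (ℤ × ℤ)} (hQ : Qs A s G)
    (W : Finset (ℤ × ℤ)) : ∃ Y : Finset (ℤ × ℤ), Y ⊆ W.filter (fun x => x ∈ Hf s) ∧
      (∀ x ∈ W, x ∈ Zw A ∩ Hf s → x ∈ Y) ∧
      (∀ Y' : Finset (ℤ × ℤ), Y' ⊆ W.filter (fun x => x ∈ Hf s) →
        (∀ x ∈ W, x ∈ Zw A ∩ Hf s → x ∈ Y') →
        cst (res G (Hf s)) (Zw A ∩ Hf s)ᶜ Y ≤ cst (res G (Hf s)) (Zw A ∩ Hf s)ᶜ Y') ∧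
      ∀ i : ℤ, A ≤ i → (-i, s) ∉ Y := by
  set Ws := W.filter (fun x => x ∈ Hf s) with hWs
  set P : Finset (ℤ × ℤ) → Prop := fun Y => ∀ x ∈ W, x ∈ Zw A ∩ Hf s → x ∈ Y with hP
  haveI : DecidablePred P := Classical.decPred P
  have hne : (Ws.powerset.filter P).Nonempty :=
    ⟨Ws, Finset.mem_filter.2 ⟨Finset.mem_powerset.2 (le_refl _), fun x hx hxs =>
      Finset.mem_filter.2 ⟨hx, hxs.2⟩⟩⟩
  obtain ⟨Y0, hY0, hY0'⟩ := Finset.exists_min_image _
    (fun Y => cst (res G (Hf s)) (Zw A ∩ Hf s)ᶜ Y) hne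
  have hY0 := Finset.mem_filter.1 hY0
  have hY01 := Finset.mem_powerset.1 hY0.1
  have hY02 := hY0.2
  have hmin : ∀ Y' : Finset (ℤ × ℤ), Y' ⊆ Ws → (∀ x ∈ W, x ∈ Zw A ∩ Hf s → x ∈ Y') →
      cst (res G (Hf s)) (Zw A ∩ Hf s)ᶜ Y0 ≤ cst (res G (Hf s)) (Zw A ∩ Hf s)ᶜ Y' :=
    fun Y' h1 h2 => hY0' Y' (Finset.mem_filter.2 ⟨Finset.mem_powerset.2 h1, h2⟩)
  have hcert : Cert (res G (Hf s)) (Zw A ∩ Hf s) Y0 := by
    intro W' h1 h2
    refine hmin W' (h1.trans hY01) fun x hx hxs => h2 x (hY02 x hx hxs) hxs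
  obtain ⟨W1, hW1, hc1, h1, h2, h3⟩ := (hB1 (ℤ × ℤ) (res G (Hf s))).2.2.2.2.2.2.2 _ _ hcert
  have hle : cst (res G (Hf s)) (Zw A ∩ Hf s)ᶜ W1 ≤ cst (res G (Hf s)) (Zw A ∩ Hf s)ᶜ Y0 := by
    unfold cst
    apply Finset.card_le_card
    intro x hx
    rw [Finset.mem_filter] at hx ⊢
    obtain ⟨hx1, y, hy1, hy2, hy3⟩ := hx
    refine ⟨hW1 hx1, y, hy1, hy2, fun hy4 => hy3 ?_⟩
    apply h3
    obtain ⟨_, a, ha1, ha2, ha3⟩ := h2 x hx1
    have hmono : res (res G (Hf s)) (↑W1 : Set (ℤ × ℤ)) ≤ res (res G (Hf s)) (↑Y0) :=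
      fun u w h => ⟨h.1, hW1 h.2.1, hW1 h.2.2⟩
    refine ⟨hy4, a, ha1, hW1 ha2, SimpleGraph.Reachable.trans ?_ (ha3.mono hmono)⟩
    exact SimpleGraph.Adj.reachable ⟨hy2.symm, hy4, hW1 hx1⟩
  refine ⟨W1, hW1.trans hY01, fun x hx hxs => h1 x (hY02 x hx hxs) hxs,
    fun Y' e1 e2 => hle.trans (hmin Y' e1 e2), fun i hi hmem => ?_⟩
  exact hQ W1 (fun x hx => (Finset.mem_filter.1 (hY01 (hW1 hx))).2) hc1 i hi (h2 _ hmem)

theorem main : S_B1 → S_B3a → S_B3 := by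
  classical
  intro hB1 hB3a A hA G hG hE hQp hQm i hi hinf hcl
  obtain ⟨hsub, huni, hsing, _, _, _, _, hrem⟩ := hB1 (ℤ × ℤ) G
  obtain ⟨W0, hvW0, hcW0⟩ := hcl
  set v : ℤ × ℤ := (-i, 0) with hv
  -- step 1
  obtain ⟨W, hcW, hconW⟩ : ∃ W : Finset (ℤ × ℤ), Cert G (Zw A) W ∧ Con G (↑W) v (Zw A) := by
    by_cases hcon : Con G (↑W0) v (Zw A)
    · exact ⟨W0, hcW0, hcon⟩
    set K : Finset (ℤ × ℤ) := W0.filter (fun x => (res G (↑W0)).Reachable v x) with hK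
    have hvK : v ∈ K := Finset.mem_filter.2 ⟨hvW0, SimpleGraph.Reachable.refl _⟩
    have hKW : ∀ x ∈ K, ∀ y, G.Adj x y → y ∈ W0 → y ∈ K := by
      intro x hx y hxy hy
      have hx' := Finset.mem_filter.1 hx
      exact Finset.mem_filter.2 ⟨hy, hx'.2.trans
        (SimpleGraph.Adj.reachable ⟨hxy, Finset.mem_coe.2 hx'.1, Finset.mem_coe.2 hy⟩)⟩
    have hKZ : ∀ x ∈ K, x ∉ Zw A := by
      intro x hx hxZ
      have hx' := Finset.mem_filter.1 hx
      exact hcon ⟨Finset.mem_coe.2 hvW0, x, hxZ, Finset.mem_coe.2 hx'.1, hx'.2⟩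
    have hcost : cst G (Zw A)ᶜ (W0 \ K) + cst G (Zw A)ᶜ K ≤ cst G (Zw A)ᶜ W0 := by
      unfold cst
      rw [← Finset.card_union_of_disjoint]
      · apply Finset.card_le_card
        intro x hx
        rw [Finset.mem_union, Finset.mem_filter, Finset.mem_filter] at hx
        rw [Finset.mem_filter]
        rcases hx with ⟨hx1, y, hy1, hy2, hy3⟩ | ⟨hx1, y, hy1, hy2, hy3⟩
        · rw [Finset.mem_sdiff] at hx1
          refine ⟨hx1.1, y, hy1, hy2, fun hy => hy3 ?_⟩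
          rw [Finset.mem_sdiff]
          exact ⟨hy, fun hyK => hx1.2 (hKW y hyK x hy2.symm hx1.1)⟩
        · exact ⟨(Finset.mem_filter.1 hx1).1, y, hy1, hy2, fun hy => hy3 (hKW x hx1 y hy2 hy)⟩
      · rw [Finset.disjoint_left]
        intro x hx hx'
        exact (Finset.mem_sdiff.1 (Finset.mem_filter.1 hx).1).2 (Finset.mem_filter.1 hx').1
    have hle := hcW0 (W0 \ K) Finset.sdiff_subset (fun x hx hxZ =>
      Finset.mem_sdiff.2 ⟨hx, fun hxK => hKZ x hxK hxZ⟩)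
    have h0 : cst G (Zw A)ᶜ K = 0 := by omega
    -- an exit edge
    obtain ⟨y, hy1, hy2⟩ : ∃ y, G.Reachable v y ∧ y ∉ (↑K : Set (ℤ × ℤ)) := by
      by_contra hcon2
      push Not at hcon2
      exact hinf (K.finite_toSet.subset fun y hy => hcon2 y hy)
    obtain ⟨a, b, ha, hb, hab⟩ := exit_step ((SimpleGraph.reachable_iff_reflTransGen _ _).1 hy1)
      (Finset.mem_coe.2 hvK) hy2
    have haK : a ∈ K := Finset.mem_coe.1 ha
    have hbZ : b ∈ Zw A := by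
      by_contra hbZ
      unfold cst at h0
      rw [Finset.card_eq_zero] at h0
      have : a ∈ K.filter (fun x => ∃ y, y ∈ (Zw A)ᶜ ∧ G.Adj x y ∧ y ∉ K) :=
        Finset.mem_filter.2 ⟨haK, b, hbZ, hab, fun h => hb (Finset.mem_coe.2 h)⟩
      rw [h0] at this
      exact absurd this (Finset.notMem_empty _)
    refine ⟨W0 ∪ {b}, huni _ _ _ hcW0 (hsing _ _ hbZ), ?_⟩
    have ha' := Finset.mem_filter.1 haK
    refine ⟨by rw [Finset.mem_coe, Finset.mem_union]; exact Or.inl hvW0, b, hbZ,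
      by rw [Finset.mem_coe, Finset.mem_union]; exact Or.inr (Finset.mem_singleton_self _), ?_⟩
    have hmono : res G (↑W0 : Set (ℤ × ℤ)) ≤ res G (↑(W0 ∪ {b})) :=
      fun u w h => ⟨h.1, by rw [Finset.mem_coe, Finset.mem_union]; exact Or.inl h.2.1,
        by rw [Finset.mem_coe, Finset.mem_union]; exact Or.inl h.2.2⟩
    refine (ha'.2.mono hmono).trans (SimpleGraph.Adj.reachable ⟨hab, ?_, ?_⟩)
    · rw [Finset.mem_coe, Finset.mem_union]; exact Or.inl ha'.1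
    · rw [Finset.mem_coe, Finset.mem_union]; exact Or.inr (Finset.mem_singleton_self _)
  -- step 2
  obtain ⟨Yp, p1, p2, p3, p4⟩ := half hB1 hQp W
  obtain ⟨Ym, m1, m2, m3, m4⟩ := half hB1 hQm W
  set Wp := W.filter (fun x => x ∈ Hf 1) with hWp
  set Wm := W.filter (fun x => x ∈ Hf (-1)) with hWm
  set Y : Finset (ℤ × ℤ) := (Yp ∪ Ym) ∪ W.filter (fun x => x ∈ Zw A ∧ x.2 = 0) with hY
  have hYW : Y ⊆ W := by
    intro x hx
    rw [hY, Finset.mem_union, Finset.mem_union] at hx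
    rcases hx with (hx | hx) | hx
    · exact (Finset.mem_filter.1 (p1 hx)).1
    · exact (Finset.mem_filter.1 (m1 hx)).1
    · exact (Finset.mem_filter.1 hx).1
  have hYZ : ∀ x ∈ W, x ∈ Zw A → x ∈ Y := by
    intro x hx hxZ
    rw [hY, Finset.mem_union, Finset.mem_union]
    rcases lt_trichotomy x.2 0 with h | h | h
    · exact Or.inl (Or.inr (m2 x hx ⟨hxZ, by simp only [Hf, Set.mem_setOf_eq]; omega⟩))
    · exact Or.inr (Finset.mem_filter.2 ⟨hx, hxZ, h⟩)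
    · exact Or.inl (Or.inl (p2 x hx ⟨hxZ, by simp only [Hf, Set.mem_setOf_eq]; omega⟩))
  -- step 3
  have row0 : ∀ (s : ℤ), (s = 1 ∨ s = -1) → ∀ Ys : Finset (ℤ × ℤ),
      (∀ i' : ℤ, A ≤ i' → (-i', s) ∉ Ys) → ∀ x ∈ Ys, x ∈ Hf s → ∀ y, G.Adj x y → y ∉ Zw A →
      y ∈ Hf s := by
    intro s hs Ys h4 x hx hxs y hxy hyZ
    by_contra hys
    have hlat := hG hxy
    have hy0 : y.2 = 0 := aux2 hlat hs hxs hys
    obtain ⟨e1, e2⟩ := aux hlat.symm hy0 (by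
      simp only [Hf, Set.mem_setOf_eq] at hxs
      intro h; rw [h] at hxs; simp at hxs)
    have hxs2 : x.2 = s := by
      simp only [Hf, Set.mem_setOf_eq] at hxs
      rcases hs with rfl | rfl <;> omega
    have hy1 : y.1 < 0 := by
      by_contra hcon
      apply hyZ
      have : y = (y.1, 0) := Prod.ext rfl hy0
      rw [this, zw_row0 hA]; omega
    have hlt : -y.1 < A := by
      by_contra hcon
      push Not at hcon
      apply h4 (-y.1) hcon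
      have : ((-(-y.1), s) : ℤ × ℤ) = x := Prod.ext (by rw [neg_neg]; exact e1.symm) hxs2.symm
      rw [this]; exact hx
    have he := hE.2 (-y.1) (by omega) hlt
    rw [neg_neg] at he
    have ey : y = (y.1, 0) := Prod.ext rfl hy0
    rcases hs with rfl | rfl
    · have ex : x = (y.1, 1) := Prod.ext e1 hxs2
      rw [ex] at hxy
      apply he.1
      rw [← ey]; exact hxy.symm
    · have ex : x = (y.1, -1) := Prod.ext e1 hxs2
      rw [ex] at hxy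
      apply he.2
      rw [← ey]; exact hxy.symm
  have hcY : cst G (Zw A)ᶜ Y ≤ cst (res G (Hf 1)) (Zw A ∩ Hf 1)ᶜ Yp +
      cst (res G (Hf (-1))) (Zw A ∩ Hf (-1))ᶜ Ym := by
    unfold cst
    refine le_trans (Finset.card_le_card ?_) (Finset.card_union_le _ _)
    intro x hx
    rw [Finset.mem_filter] at hx
    obtain ⟨hx1, y, hy1, hy2, hy3⟩ := hx
    rw [Finset.mem_union, Finset.mem_filter, Finset.mem_filter]
    rw [hY, Finset.mem_union, Finset.mem_union] at hx1 hy3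
    push Not at hy3
    rcases hx1 with (hx1 | hx1) | hx1
    · left
      have hxs := (Finset.mem_filter.1 (p1 hx1)).2
      have hys := row0 1 (Or.inl rfl) Yp p4 x hx1 hxs y hy2 hy1
      exact ⟨hx1, y, fun h => hy1 h.1, ⟨hy2, hxs, hys⟩, hy3.1.1⟩
    · right
      have hxs := (Finset.mem_filter.1 (m1 hx1)).2
      have hys := row0 (-1) (Or.inr rfl) Ym m4 x hx1 hxs y hy2 hy1
      exact ⟨hx1, y, fun h => hy1 h.1, ⟨hy2, hxs, hys⟩, hy3.1.2⟩
    · exfalso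
      obtain ⟨_, hxZ, hx0⟩ := Finset.mem_filter.1 hx1
      rcases enter hA hy1 hxZ (hG hy2).symm with ⟨hc0, h1⟩ | ⟨h1, h2⟩ | ⟨h1, h2⟩
      · rw [hc0] at hy2
        rcases h1 with rfl | rfl | rfl
        · exact hE.1 hy2
        · have := (hE.2 0 (le_refl _) (by omega)).1
          simp only [neg_zero] at this
          exact this hy2
        · have := (hE.2 0 (le_refl _) (by omega)).2
          simp only [neg_zero] at this
          exact this hy2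
      · omega
      · omega
  -- step 4
  have hcW4 : cst (res G (Hf 1)) (Zw A ∩ Hf 1)ᶜ Wp + cst (res G (Hf (-1))) (Zw A ∩ Hf (-1))ᶜ Wm ≤
      cst G (Zw A)ᶜ W := by
    unfold cst
    rw [← Finset.card_union_of_disjoint]
    · apply Finset.card_le_card
      intro x hx
      rw [Finset.mem_filter]
      rcases Finset.mem_union.1 hx with hx | hx
      · obtain ⟨hx1, y, hy1, hy2, hy3⟩ := Finset.mem_filter.1 hx
        exact ⟨(Finset.mem_filter.1 hx1).1, y, fun h => hy1 ⟨h, hy2.2.2⟩, hy2.1,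
          fun h => hy3 (Finset.mem_filter.2 ⟨h, hy2.2.2⟩)⟩
      · obtain ⟨hx1, y, hy1, hy2, hy3⟩ := Finset.mem_filter.1 hx
        exact ⟨(Finset.mem_filter.1 hx1).1, y, fun h => hy1 ⟨h, hy2.2.2⟩, hy2.1,
          fun h => hy3 (Finset.mem_filter.2 ⟨h, hy2.2.2⟩)⟩
    · rw [Finset.disjoint_left]
      intro x hx hx'
      have h1 := (Finset.mem_filter.1 (Finset.mem_filter.1 hx).1).2
      have h2 := (Finset.mem_filter.1 (Finset.mem_filter.1 hx').1).2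
      simp only [Hf, Set.mem_setOf_eq] at h1 h2
      omega
  have hWY := hcW Y hYW hYZ
  have hp := p3 Wp (le_refl _) (fun x hx hxs => Finset.mem_filter.2 ⟨hx, hxs.2⟩)
  have hm := m3 Wm (le_refl _) (fun x hx hxs => Finset.mem_filter.2 ⟨hx, hxs.2⟩)
  have ep : cst (res G (Hf 1)) (Zw A ∩ Hf 1)ᶜ Wp ≤ cst (res G (Hf 1)) (Zw A ∩ Hf 1)ᶜ Yp := by
    omega
  have em : cst (res G (Hf (-1))) (Zw A ∩ Hf (-1))ᶜ Wm ≤
      cst (res G (Hf (-1))) (Zw A ∩ Hf (-1))ᶜ Ym := by omega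
  have cp : Cert (res G (Hf 1)) (Zw A ∩ Hf 1) Wp := fun W' h1 h2 =>
    ep.trans (p3 W' h1 fun x hx hxs => h2 x (Finset.mem_filter.2 ⟨hx, hxs.2⟩) hxs)
  have cm : Cert (res G (Hf (-1))) (Zw A ∩ Hf (-1)) Wm := fun W' h1 h2 =>
    em.trans (m3 W' h1 fun x hx hxs => h2 x (Finset.mem_filter.2 ⟨hx, hxs.2⟩) hxs)
  -- step 5
  obtain ⟨s, i', hs, hi', hcon'⟩ := hB3a A hA G hG hE (↑W) i hi hconW
  have hcoe : ∀ s : ℤ, (↑W ∩ Hf s : Set (ℤ × ℤ)) = ↑(W.filter (fun x => x ∈ Hf s)) := by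
    intro s; ext x; simp [Finset.mem_filter]
  rw [hcoe s] at hcon'
  rcases hs with rfl | rfl
  · exact hQp Wp (fun x hx => (Finset.mem_filter.1 hx).2) cp i' hi' hcon'
  · exact hQm Wm (fun x hx => (Finset.mem_filter.1 hx).2) cm i' hi' hcon'

end Pool.Agent.W829.UC.B3
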