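import Pool.Agent.W829.UC.Stmts

set_option autoImplicit false
set_option linter.all false

open MeasureTheory Set
open Pool.Agent.H978R2

namespace Pool.Agent.W829.UC.C6

section Gen
variable {α : Type*}

lemma cst_congr {G G' : SimpleGraph α} {W : Finset α} (h : ∀ x ∈ W, ∀ y, G.Adj x y ↔ G'.Adj x y)
    (U : Set α) {W' : Finset α} (hW : W' ⊆ W) : cst G U W' = cst G' U W' := by
  classical
  unfold cst
  congr 1
  ext x
  simp only [Finset.mem_filter]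
  constructor
  · rintro ⟨h1, y, h2, h3, h4⟩; exact ⟨h1, y, h2, (h x (hW h1) y).1 h3, h4⟩
  · rintro ⟨h1, y, h2, h3, h4⟩; exact ⟨h1, y, h2, (h x (hW h1) y).2 h3, h4⟩

lemma cert_congr {G G' : SimpleGraph α} {W : Finset α} (h : ∀ x ∈ W, ∀ y, G.Adj x y ↔ G'.Adj x y)
    (A : Set α) : Cert G A W ↔ Cert G' A W := by
  constructor
  · intro hc W' h1 h2
    rw [← cst_congr h _ h1, ← cst_congr h _ (le_refl _)]
    exact hc W' h1 h2
  · intro hc W' h1 h2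
    rw [cst_congr h _ h1, cst_congr h _ (le_refl _)]
    exact hc W' h1 h2

lemma res_congr {G G' : SimpleGraph α} {W : Finset α} (h : ∀ x ∈ W, ∀ y, G.Adj x y ↔ G'.Adj x y) :
    res G (↑W : Set α) = res G' (↑W) := by
  ext x y
  constructor
  · rintro ⟨h1, h2, h3⟩; exact ⟨(h x h2 y).1 h1, h2, h3⟩
  · rintro ⟨h1, h2, h3⟩; exact ⟨(h x h2 y).2 h1, h2, h3⟩

lemma con_congr {G G' : SimpleGraph α} {W : Finset α} (h : ∀ x ∈ W, ∀ y, G.Adj x y ↔ G'.Adj x y)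
    (x : α) (A : Set α) : Con G (↑W) x A ↔ Con G' (↑W) x A := by
  unfold Con
  rw [res_congr h]

variable [DecidableEq α]

lemma cst_map {G G' : SimpleGraph α} (e : α ≃ α) (h : ∀ x y, G'.Adj (e x) (e y) ↔ G.Adj x y)
    (U : Set α) (W : Finset α) : cst G' (e '' U) (W.image e) = cst G U W := by
  classical
  unfold cst
  have : (W.image e).filter (fun x => ∃ y, y ∈ e '' U ∧ G'.Adj x y ∧ y ∉ W.image e) =
      (W.filter (fun x => ∃ y, y ∈ U ∧ G.Adj x y ∧ y ∉ W)).image e := by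
    ext x
    simp only [Finset.mem_filter, Finset.mem_image]
    constructor
    · rintro ⟨⟨x0, hx0, rfl⟩, _, ⟨y0, hy0, rfl⟩, h1, h2⟩
      exact ⟨x0, ⟨hx0, y0, hy0, (h x0 y0).1 h1, fun h3 => h2 ⟨y0, h3, rfl⟩⟩, rfl⟩
    · rintro ⟨x0, ⟨hx0, y0, hy0, h1, h2⟩, rfl⟩
      refine ⟨⟨x0, hx0, rfl⟩, e y0, ⟨y0, hy0, rfl⟩, (h x0 y0).2 h1, ?_⟩
      rintro ⟨y1, hy1, he⟩
      exact h2 (e.injective he ▸ hy1)
  rw [this, Finset.card_image_of_injective _ e.injective]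

lemma cert_map {G G' : SimpleGraph α} (e : α ≃ α) (h : ∀ x y, G'.Adj (e x) (e y) ↔ G.Adj x y)
    (A : Set α) (W : Finset α) (hc : Cert G A W) : Cert G' (e '' A) (W.image e) := by
  intro W' h1 h2
  have hW' : W' = (W'.image e.symm).image e := by
    rw [Finset.image_image]; simp
  have hcompl : (e '' A)ᶜ = e '' Aᶜ := (Set.image_compl_eq e.bijective).symm
  rw [hW', hcompl, cst_map e h, cst_map e h]
  refine hc _ ?_ ?_
  · intro x hx
    rw [Finset.mem_image] at hx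
    obtain ⟨y, hy, rfl⟩ := hx
    have := h1 hy
    rw [Finset.mem_image] at this
    obtain ⟨z, hz, rfl⟩ := this
    simpa using hz
  · intro x hx hxA
    rw [Finset.mem_image]
    exact ⟨e x, h2 (e x) (Finset.mem_image_of_mem _ hx) ⟨x, hxA, rfl⟩, by simp⟩

lemma con_map {G G' : SimpleGraph α} (e : α ≃ α) (h : ∀ x y, G'.Adj (e x) (e y) ↔ G.Adj x y)
    (A : Set α) (W : Finset α) (x : α) (hc : Con G (↑W) x A) :
    Con G' (↑(W.image e)) (e x) (e '' A) := by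
  obtain ⟨h1, a, h2, h3, h4⟩ := hc
  refine ⟨by rw [Finset.mem_coe]; exact Finset.mem_image_of_mem _ h1, e a, ⟨a, h2, rfl⟩,
    by rw [Finset.mem_coe]; exact Finset.mem_image_of_mem _ h3, ?_⟩
  let φ : res G (↑W : Set α) →g res G' (↑(W.image e) : Set α) :=
    ⟨e, fun {u v} huv => ⟨(h u v).2 huv.1,
      by rw [Finset.mem_coe]; exact Finset.mem_image_of_mem _ huv.2.1,
      by rw [Finset.mem_coe]; exact Finset.mem_image_of_mem _ huv.2.2⟩⟩
  exact h4.map φ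

end Gen

/-- edges at the vertices of `W` -/
def edg (W : Finset (ℤ × ℤ)) : Finset (Sym2 (ℤ × ℤ)) :=
  W.biUnion (fun x => (nb x).image (fun y => s(x, y)))

lemma mem_nb {x y : ℤ × ℤ} (h : lat.Adj x y) : y ∈ nb x := by
  have h := lat_adj.1 h
  unfold nb
  simp only [Finset.mem_insert, Finset.mem_singleton]
  rcases h with ⟨h1, h2 | h2⟩ | ⟨h1, h2 | h2⟩
  · right; right; right; exact Prod.ext (by simp; omega) (by simp; omega)
  · right; right; left; exact Prod.ext (by simp; omega) (by simp; omega)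
  · right; left; exact Prod.ext (by simp; omega) (by simp; omega)
  · left; exact Prod.ext (by simp; omega) (by simp; omega)

lemma adj_congr {ω ω' : Sym2 (ℤ × ℤ) → Bool} {W : Finset (ℤ × ℤ)}
    (h : ∀ e ∈ (↑(edg W) : Set (Sym2 (ℤ × ℤ))), ω e = ω' e) (S : Set (ℤ × ℤ)) :
    ∀ x ∈ W, ∀ y, (res (og ω) S).Adj x y ↔ (res (og ω') S).Adj x y := by
  intro x hx y
  have key : lat.Adj x y → ω s(x, y) = ω' s(x, y) := by
    intro hxy
    apply h
    rw [Finset.mem_coe, edg, Finset.mem_biUnion]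
    exact ⟨x, hx, Finset.mem_image_of_mem _ (mem_nb hxy)⟩
  constructor
  · rintro ⟨⟨h1, h2⟩, h3⟩; exact ⟨⟨h1, by rw [← key h1]; exact h2⟩, h3⟩
  · rintro ⟨⟨h1, h2⟩, h3⟩; exact ⟨⟨h1, by rw [key h1]; exact h2⟩, h3⟩

/-- the half plane event -/
def QS (A s : ℤ) : Set (Sym2 (ℤ × ℤ) → Bool) := {ω | Qs A s (og ω)}

lemma meas_QS (A s : ℤ) : MeasurableSet (QS A s) := by
  have h : QS A s = ⋂ (W : Finset (ℤ × ℤ)), ⋂ (_ : ∀ x ∈ W, x ∈ Hf s), ⋂ (i : ℤ), ⋂ (_ : A ≤ i),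
      {ω | Cert (res (og ω) (Hf s)) (Zw A ∩ Hf s) W →
        ¬ Con (res (og ω) (Hf s)) (↑W) (-i, s) (Zw A ∩ Hf s)} := by
    ext ω
    simp only [Set.mem_iInter, Set.mem_setOf_eq, QS, Qs]
    constructor
    · intro h W hW i hi hc; exact h W hW hc i hi
    · intro h W hW hc i hi; exact h W hW i hi hc
  rw [h]
  refine MeasurableSet.iInter fun W => MeasurableSet.iInter fun _ => MeasurableSet.iInter fun i =>
    MeasurableSet.iInter fun _ => ?_
  refine DepOn.measurable_fin (J := edg W) ?_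
  intro ω ω' hω
  have h1 := adj_congr hω (Hf s)
  simp only [Set.mem_setOf_eq]
  rw [cert_congr h1, con_congr h1]

lemma dep_QS (A s : ℤ) : DepOn (ins (Hf s)) (QS A s) := by
  intro ω ω' hω
  have h : res (og ω) (Hf s) = res (og ω') (Hf s) := by
    ext x y
    have key : x ∈ Hf s → y ∈ Hf s → ω s(x, y) = ω' s(x, y) := by
      intro hx hy
      apply hω
      intro v hv
      rw [Sym2.mem_iff] at hv
      rcases hv with rfl | rfl
      · exact hx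
      · exact hy
    constructor
    · rintro ⟨⟨h1, h2⟩, h3, h4⟩; exact ⟨⟨h1, by rw [← key h3 h4]; exact h2⟩, h3, h4⟩
    · rintro ⟨⟨h1, h2⟩, h3, h4⟩; exact ⟨⟨h1, by rw [key h3 h4]; exact h2⟩, h3, h4⟩
  show Qs A s (og ω) ↔ Qs A s (og ω')
  unfold Qs
  rw [h]

/-- reflection in the horizontal axis -/
def rfy : (ℤ × ℤ) ≃ (ℤ × ℤ) := Equiv.prodCongr (Equiv.refl ℤ) (Equiv.neg ℤ)

lemma rfy_rfy (x : ℤ × ℤ) : rfy (rfy x) = x := by
  ext
  · rfl
  · show - -x.2 = x.2; rw [neg_neg]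

lemma rfy_adj (x y : ℤ × ℤ) : lat.Adj (rfy x) (rfy y) ↔ lat.Adj x y := by
  show (_ : ℤ) = 1 ↔ (_ : ℤ) = 1
  have : ((rfy x).1 - (rfy y).1) ^ 2 + ((rfy x).2 - (rfy y).2) ^ 2 =
      (x.1 - y.1) ^ 2 + (x.2 - y.2) ^ 2 := by
    simp [rfy]; ring
  rw [this]

/-- reflected configuration -/
def RC (ω : Sym2 (ℤ × ℤ) → Bool) : Sym2 (ℤ × ℤ) → Bool := fun e => ω (Sym2.map rfy e)

lemma rfy_Hf {x : ℤ × ℤ} : rfy x ∈ Hf 1 ↔ x ∈ Hf (-1) := by
  simp only [Hf, Set.mem_setOf_eq, rfy, Equiv.prodCongr_apply, Prod.map_snd, Equiv.neg_apply]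
  omega

lemma RC_adj (ω : Sym2 (ℤ × ℤ) → Bool) (x y : ℤ × ℤ) :
    (res (og (RC ω)) (Hf 1)).Adj (rfy x) (rfy y) ↔ (res (og ω) (Hf (-1))).Adj x y := by
  have h1 : RC ω s(rfy x, rfy y) = ω s(x, y) := by
    show ω (Sym2.map rfy s(rfy x, rfy y)) = ω s(x, y)
    rw [Sym2.map_mk]
    simp only [Prod.map, rfy_rfy]
  constructor
  · rintro ⟨⟨h2, h3⟩, h4, h5⟩
    exact ⟨⟨(rfy_adj x y).1 h2, by rw [← h1]; exact h3⟩, rfy_Hf.1 h4, rfy_Hf.1 h5⟩
  · rintro ⟨⟨h2, h3⟩, h4, h5⟩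
    exact ⟨⟨(rfy_adj x y).2 h2, by rw [h1]; exact h3⟩, rfy_Hf.2 h4, rfy_Hf.2 h5⟩

lemma rfy_Z (A : ℤ) : rfy '' (Zw A ∩ Hf (-1)) = Zw A ∩ Hf 1 := by
  ext x
  constructor
  · rintro ⟨y, ⟨h1, h2⟩, rfl⟩
    refine ⟨?_, rfy_Hf.2 h2⟩
    simp only [Zw, Set.mem_setOf_eq, rfy, Equiv.prodCongr_apply, Prod.map_snd, Prod.map_fst,
      Equiv.neg_apply, Equiv.refl_apply, abs_neg] at h1 ⊢
    exact h1
  · rintro ⟨h1, h2⟩
    refine ⟨rfy x, ⟨?_, ?_⟩, rfy_rfy x⟩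
    · simp only [Zw, Set.mem_setOf_eq, rfy, Equiv.prodCongr_apply, Prod.map_snd, Prod.map_fst,
        Equiv.neg_apply, Equiv.refl_apply, abs_neg] at h1 ⊢
      exact h1
    · rw [← rfy_Hf, rfy_rfy]; exact h2

lemma refl_QS (A : ℤ) {ω : Sym2 (ℤ × ℤ) → Bool} (h : Qs A 1 (og (RC ω))) : Qs A (-1) (og ω) := by
  intro W hW hc i hi hcon
  have h1 := cert_map rfy (RC_adj ω) _ _ hc
  have h2 := con_map rfy (RC_adj ω) _ _ _ hcon
  rw [rfy_Z] at h1 h2
  refine h (W.image rfy) ?_ h1 i hi ?_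
  · intro x hx
    rw [Finset.mem_image] at hx
    obtain ⟨y, hy, rfl⟩ := hx
    exact rfy_Hf.2 (hW y hy)
  · have : rfy ((-i, -1) : ℤ × ℤ) = (-i, 1) := by simp [rfy]
    rw [this] at h2
    exact h2

/-- the edges which have to be closed -/
noncomputable def F0 (A : ℤ) : Finset (Sym2 (ℤ × ℤ)) :=
  {s((0, 0), (-1, 0))} ∪ ((Finset.Ico 0 A).image (fun i : ℤ => s(((-i, 0) : ℤ × ℤ), (-i, 1))) ∪
    (Finset.Ico 0 A).image (fun i : ℤ => s(((-i, 0) : ℤ × ℤ), (-i, -1))))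

lemma E0_of (A : ℤ) {ω : Sym2 (ℤ × ℤ) → Bool} (h : ∀ e ∈ F0 A, ω e = false) : E0 A (og ω) := by
  refine ⟨fun hadj => ?_, fun i h0 h1 => ⟨fun hadj => ?_, fun hadj => ?_⟩⟩
  · have := h s((0, 0), (-1, 0)) (by simp [F0])
    have h2 : ω s((0, 0), (-1, 0)) = true := hadj.2
    rw [this] at h2; exact absurd h2 (by simp)
  · have := h s(((-i, 0) : ℤ × ℤ), (-i, 1)) (by
      rw [F0, Finset.mem_union, Finset.mem_union]
      exact Or.inr (Or.inl (Finset.mem_image.2 ⟨i, Finset.mem_Ico.2 ⟨h0, h1⟩, rfl⟩)))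
    have h2 : ω s(((-i, 0) : ℤ × ℤ), (-i, 1)) = true := hadj.2
    rw [this] at h2; exact absurd h2 (by simp)
  · have := h s(((-i, 0) : ℤ × ℤ), (-i, -1)) (by
      rw [F0, Finset.mem_union, Finset.mem_union]
      exact Or.inr (Or.inr (Finset.mem_image.2 ⟨i, Finset.mem_Ico.2 ⟨h0, h1⟩, rfl⟩)))
    have h2 : ω s(((-i, 0) : ℤ × ℤ), (-i, -1)) = true := hadj.2
    rw [this] at h2; exact absurd h2 (by simp)

lemma F0_row0 (A : ℤ) {e : Sym2 (ℤ × ℤ)} (he : e ∈ F0 A) : ∃ a : ℤ, ((a, 0) : ℤ × ℤ) ∈ e := by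
  rw [F0, Finset.mem_union, Finset.mem_union, Finset.mem_singleton, Finset.mem_image,
    Finset.mem_image] at he
  rcases he with rfl | ⟨i, _, rfl⟩ | ⟨i, _, rfl⟩
  · exact ⟨0, by simp⟩
  · exact ⟨-i, by simp⟩
  · exact ⟨-i, by simp⟩

lemma closed_pos (p : NNReal) (hp : p ≤ 1) (hp1 : p < 1) (F : Finset (Sym2 (ℤ × ℤ))) :
    0 < mu p hp {ω | ∀ e ∈ F, ω e = false} := by
  have h : {ω : Sym2 (ℤ × ℤ) → Bool | ∀ e ∈ F, ω e = false} =
      Set.pi (F : Set (Sym2 (ℤ × ℤ))) (fun _ => {false}) := by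
    ext ω; simp [Set.mem_pi]
  rw [h]
  unfold mu bm
  rw [Measure.infinitePi_pi _ (fun _ _ => MeasurableSet.singleton _)]
  have h1 : (PMF.bernoulli p hp).toMeasure {false} = 1 - p := bern_false p hp
  rw [Finset.prod_const, h1]
  have h2 : (0 : ENNReal) < 1 - (p : ENNReal) := by
    rw [tsub_pos_iff_lt]
    exact_mod_cast hp1
  exact ENNReal.pow_pos h2 _

theorem main : S_C6 := by
  classical
  rintro p hp hp1 A hA ⟨E, hEm, hEp, hE⟩
  have hQ1 : 0 < mu p hp (QS A 1) := lt_of_lt_of_le hEp (measure_mono fun ω hω => hE ω hω)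
  have hRmeas : Measurable RC := by
    rw [measurable_pi_iff]; intro i; exact measurable_pi_apply _
  have hlaw : (mu p hp).map RC = mu p hp :=
    map_comp_inj p hp (Sym2.map rfy) (Sym2.map.injective rfy.injective)
  have hQm : 0 < mu p hp (QS A (-1)) := by
    have h1 : mu p hp (RC ⁻¹' (QS A 1)) = mu p hp (QS A 1) := by
      conv_rhs => rw [← hlaw]
      rw [Measure.map_apply hRmeas (meas_QS A 1)]
    rw [← h1] at hQ1
    exact lt_of_lt_of_le hQ1 (measure_mono fun ω hω => refl_QS A hω)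
  set C0 : Set (Sym2 (ℤ × ℤ) → Bool) := {ω | ∀ e ∈ F0 A, ω e = false} with hC0
  have hC0p : 0 < mu p hp C0 := closed_pos p hp hp1 (F0 A)
  have hC0d : DepOn (↑(F0 A) : Set (Sym2 (ℤ × ℤ))) C0 := by
    intro ω ω' h
    constructor
    · intro h1 e he; rw [← h e (Finset.mem_coe.2 he)]; exact h1 e he
    · intro h1 e he; rw [h e (Finset.mem_coe.2 he)]; exact h1 e he
  have hC0m : MeasurableSet C0 := hC0d.measurable_fin
  have hd1 : Disjoint (ins (Hf 1)) (ins (Hf (-1))) := by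
    apply ins_disjoint
    rw [Set.disjoint_left]
    intro x hx hx'
    simp only [Hf, Set.mem_setOf_eq] at hx hx'
    omega
  have hd2 : Disjoint (ins (Hf 1) ∪ ins (Hf (-1))) (↑(F0 A) : Set (Sym2 (ℤ × ℤ))) := by
    rw [Set.disjoint_left]
    intro e he he'
    obtain ⟨a, ha⟩ := F0_row0 A (Finset.mem_coe.1 he')
    rcases he with he | he
    · have := he _ ha
      simp only [Hf, Set.mem_setOf_eq] at this
      omega
    · have := he _ ha
      simp only [Hf, Set.mem_setOf_eq] at this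
      omega
  have m1 := meas_QS A 1
  have m2 := meas_QS A (-1)
  have e1 : mu p hp (QS A 1 ∩ QS A (-1)) = mu p hp (QS A 1) * mu p hp (QS A (-1)) :=
    bm_inter p hp hd1 m1 m2 (dep_QS A 1) (dep_QS A (-1))
  have e2 : mu p hp ((QS A 1 ∩ QS A (-1)) ∩ C0) =
      mu p hp (QS A 1 ∩ QS A (-1)) * mu p hp C0 :=
    bm_inter p hp hd2 (m1.inter m2) hC0m
      (((dep_QS A 1).mono subset_union_left).inter ((dep_QS A (-1)).mono subset_union_right)) hC0d
  refine ⟨(QS A 1 ∩ QS A (-1)) ∩ C0, (m1.inter m2).inter hC0m, ?_, fun ω hω =>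
    ⟨hω.1.1, hω.1.2, E0_of A hω.2⟩⟩
  rw [e2, e1]
  exact ENNReal.mul_pos (ENNReal.mul_pos hQ1.ne' hQm.ne').ne' hC0p.ne'

end Pool.Agent.W829.UC.C6
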