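import Pool.Agent.H978R2.Uni
import Pool.Agent.H978R2.Cross

/-!
# MP_566bac_pr (unique continuation on the percolation cluster): definitions

`G` is always the open subgraph `openG lat ω` of the square lattice.  Coordinates `x = (x.1, x.2)`.
Slope parameter `A : ℤ`, `2 ≤ A`.
-/

set_option autoImplicit false
set_option linter.all false

open MeasureTheory Set
open Pool.Agent.H978R2

namespace Pool.Agent.W829.UC

section General

variable {α : Type*}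

open Classical in
/-- cost of the finite set `W`: the number of `x ∈ W` with a `G`-neighbour `y ∈ U`, `y ∉ W` -/
noncomputable def cst (G : SimpleGraph α) (U : Set α) (W : Finset α) : ℕ :=
  (W.filter (fun x => ∃ y, y ∈ U ∧ G.Adj x y ∧ y ∉ W)).card

/-- `W` is a certificate for `A`: it has minimal cost among its subsets containing `A ∩ W` -/
def Cert (G : SimpleGraph α) (A : Set α) (W : Finset α) : Prop :=
  ∀ W' : Finset α, W' ⊆ W → (∀ x ∈ W, x ∈ A → x ∈ W') → cst G Aᶜ W ≤ cst G Aᶜ W'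

/-- the closure of `A` -/
def Cl (G : SimpleGraph α) (A : Set α) : Set α := {v | ∃ W : Finset α, v ∈ W ∧ Cert G A W}

/-- restriction of a graph to a vertex set (same vertex type) -/
def res (G : SimpleGraph α) (S : Set α) : SimpleGraph α where
  Adj x y := G.Adj x y ∧ x ∈ S ∧ y ∈ S
  symm := ⟨fun x y h => ⟨h.1.symm, h.2.2, h.2.1⟩⟩
  loopless := ⟨fun x h => G.loopless.irrefl x h.1⟩

/-- `x ∈ W` is connected to a point of `A ∩ W` inside `W` -/
def Con (G : SimpleGraph α) (W : Set α) (x : α) (A : Set α) : Prop :=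
  x ∈ W ∧ ∃ a, a ∈ A ∧ a ∈ W ∧ (res G W).Reachable x a

/-- a system of disjoint paths from `X i` to `T (π i)` through `J` (`l i` = interior vertices) -/
def PS (G : SimpleGraph α) (J : Set α) {k : ℕ} (X T : Fin k → α) (π : Equiv.Perm (Fin k)) : Prop :=
  ∃ l : Fin k → List α,
    (∀ i, (X i :: (l i ++ [T (π i)])).IsChain G.Adj) ∧
    (∀ i, (l i).Nodup ∧ ∀ v ∈ l i, v ∈ J) ∧
    (∀ i j, i ≠ j → (l i).Disjoint (l j))

open Classical in
/-- the matrix D - A, degree minus adjacency -/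
noncomputable def Em (G : SimpleGraph α) (d : α → ℝ) (x y : α) : ℝ :=
  if x = y then d x else if G.Adj x y then -1 else 0

/-- minimal cost of a set `W` with `A ∩ Λ ⊆ W ⊆ Λ` -/
noncomputable def fm (G : SimpleGraph α) (U : Set α) (Λ : Finset α) (A : Set α) : ℕ :=
  sInf {n | ∃ W : Finset α, W ⊆ Λ ∧ (∀ x ∈ Λ, x ∈ A → x ∈ W) ∧ cst G U W = n}

end General

/-! ### geometry of the lattice -/

/-- the four lattice neighbours -/
def nb (x : ℤ × ℤ) : Finset (ℤ × ℤ) :=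
  {(x.1 + 1, x.2), (x.1 - 1, x.2), (x.1, x.2 + 1), (x.1, x.2 - 1)}

open Classical in
/-- the degree of `x` in `G ≤ lat` -/
noncomputable def dg (G : SimpleGraph (ℤ × ℤ)) (x : ℤ × ℤ) : ℝ :=
  (((nb x).filter (fun y => G.Adj x y)).card : ℝ)

open Classical in
/-- `h` is harmonic at `x` -/
def HarmAt (G : SimpleGraph (ℤ × ℤ)) (h : ℤ × ℤ → ℝ) (x : ℤ × ℤ) : Prop :=
  ∑ y ∈ (nb x).filter (fun y => G.Adj x y), (h y - h x) = 0

/-- `C` is an infinite connected component of `G` -/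
def InfComp (G : SimpleGraph (ℤ × ℤ)) (C : Set (ℤ × ℤ)) : Prop :=
  C.Infinite ∧ ∀ x ∈ C, ∀ y, G.Reachable x y ↔ y ∈ C

/-- the region to the right of the profile `g` -/
def Rg (g : ℤ → ℤ) : Set (ℤ × ℤ) := {x | g x.2 < x.1}

/-- admissible profiles -/
def Adm (g : ℤ → ℤ) : Prop :=
  (∀ y, 1 ≤ y → g (y - 1) ≤ g y) ∧ (∀ y, y ≤ -1 → g (y + 1) ≤ g y) ∧
    g 1 ≤ g 0 + 1 ∧ g (-1) ≤ g 0 + 1

/-- order of the starting points along the boundary of `Rg g` -/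
def sk (x : ℤ × ℤ) : Lex (ℤ × ℤ) := toLex (-x.2, if 0 ≤ x.2 then -x.1 else x.1)

/-- order of the exits of the box with rows `-M .. M`: top from right to left, left side from top to
bottom, bottom from left to right -/
def ek (M : ℤ) (t : ℤ × ℤ) : Lex (ℤ × ℤ) :=
  if t.2 = M + 1 then toLex (0, -t.1) else if t.2 = -M - 1 then toLex (2, t.1)
    else toLex (1, -t.2)

/-- a lattice path from `x ∈ Rg g` through the box minus `Rg g` to an exit `t` -/
def Tr (g : ℤ → ℤ) (N R M : ℤ) (x t : ℤ × ℤ) (l : List (ℤ × ℤ)) : Prop :=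
  (x :: (l ++ [t])).IsChain lat.Adj ∧ x ∈ Rg g ∧ x ∈ Rc (-N) R (-M) M ∧
    (∀ v ∈ l, v ∉ Rg g ∧ v ∈ Rc (-N) R (-M) M) ∧ t ∉ Rg g ∧ t ∉ Rc (-N) R (-M) M

/-- the box contains the boundary of `Rg g` in its rows -/
def Fits (g : ℤ → ℤ) (N R M : ℤ) : Prop := 0 ≤ M ∧ ∀ y, -M ≤ y → y ≤ M → -N ≤ g y ∧ g y ≤ R

/-- the wedge `{x.1 ≥ 0, |x.2| ≤ ⌈x.1/A⌉}` -/
def Zw (A : ℤ) : Set (ℤ × ℤ) := {x | 0 ≤ x.1 ∧ A * (|x.2| - 1) < x.1}

/-- the region above the line of slope `1/A` through the origin -/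
def U1 (A : ℤ) : Set (ℤ × ℤ) := {x | x.1 ≤ A * (x.2 - 1)}

/-- the layer: highest points `(a, ⌈a/A⌉)` below the line, from column `-k*A` on -/
def Ly (A : ℤ) (k : ℕ) : Set (ℤ × ℤ) := {x | A * (x.2 - 1) < x.1 ∧ x.1 ≤ A * x.2 ∧ -(k * A) ≤ x.1}

/-- upper (`s = 1`) or lower (`s = -1`) open half plane -/
def Hf (s : ℤ) : Set (ℤ × ℤ) := {x | 1 ≤ s * x.2}

/-- no certificate of the half plane problem connects `(-i, s)`, `i ≥ A`, to the wedge -/
def Qs (A s : ℤ) (G : SimpleGraph (ℤ × ℤ)) : Prop :=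
  ∀ W : Finset (ℤ × ℤ), (∀ x ∈ W, x ∈ Hf s) → Cert (res G (Hf s)) (Zw A ∩ Hf s) W →
    ∀ i : ℤ, A ≤ i → ¬ Con (res G (Hf s)) (↑W) (-i, s) (Zw A ∩ Hf s)

/-- finitely many edges near the apex are closed -/
def E0 (A : ℤ) (G : SimpleGraph (ℤ × ℤ)) : Prop :=
  ¬ G.Adj (0, 0) (-1, 0) ∧ ∀ i : ℤ, 0 ≤ i → i < A →
    ¬ G.Adj (-i, 0) (-i, 1) ∧ ¬ G.Adj (-i, 0) (-i, -1)

/-- the cut cost of the layer grows faster than with speed `1` -/
def Fp (A : ℤ) (G : SimpleGraph (ℤ × ℤ)) : Prop :=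
  ∀ k : ℕ, 1 ≤ k → ∀ Λ : Finset (ℤ × ℤ), (∀ x, x ∈ Ly A k → x ∉ Ly A 0 → x ∈ Λ) →
    fm G (U1 A) Λ (Ly A 0) + k < fm G (U1 A) Λ (Ly A k)

/-- Bernoulli percolation on the square lattice -/
noncomputable abbrev mu (p : NNReal) (hp : p ≤ 1) : Measure (Sym2 (ℤ × ℤ) → Bool) :=
  bm (Sym2 (ℤ × ℤ)) p hp

/-- the open graph -/
abbrev og (ω : Sym2 (ℤ × ℤ) → Bool) : SimpleGraph (ℤ × ℤ) := openG lat ω

/-- vertices in infinite clusters -/
def InfV (ω : Sym2 (ℤ × ℤ) → Bool) : Set (ℤ × ℤ) := {x | {y | (og ω).Reachable x y}.Infinite}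

/-- open the edges in `F` -/
def opF (ω : Sym2 (ℤ × ℤ) → Bool) (F : Finset (Sym2 (ℤ × ℤ))) : Sym2 (ℤ × ℤ) → Bool :=
  open Classical in fun e => if e ∈ F then true else ω e

end Pool.Agent.W829.UC
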