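import Pool.Agent.W829.UC.Stmts

/-!
# MP_566bac_pr: final definitions and the deterministic part of the assembly
-/

set_option autoImplicit false
set_option linter.all false

open MeasureTheory Set Filter
open Pool.Agent.H978R2

namespace Pool.Agent.W829.UC

open Classical in
/-- open neighbours of `x` -/
noncomputable def oN (ω : Sym2 (ℤ × ℤ) → Bool) (x : ℤ × ℤ) : Finset (ℤ × ℤ) :=
  (nb x).filter (fun y => (openG lat ω).Adj x y)

/-- `h` is harmonic on `C`: at every `x ∈ C` the value `h x` is the average of `h` over the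
open neighbours of `x` -/
def HarmonicOn (ω : Sym2 (ℤ × ℤ) → Bool) (C : Set (ℤ × ℤ)) (h : ℤ × ℤ → ℝ) : Prop :=
  ∀ x ∈ C, h x = (∑ y ∈ oN ω x, h y) / ((oN ω x).card : ℝ)

/-- the lattice points in the closed Euclidean ball of radius `N` -/
def ball (N : ℕ) : Set (ℤ × ℤ) := {x | x.1 ^ 2 + x.2 ^ 2 ≤ (N : ℤ) ^ 2}

/-- positive lower density -/
def PosDens (S : Set (ℤ × ℤ)) : Prop :=
  0 < liminf (fun N : ℕ => ((S ∩ ball N).ncard : ℝ) / ((ball N).ncard : ℝ)) atTop

/-- quadratic growth of the counting function -/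
def QG (S : Set (ℤ × ℤ)) : Prop :=
  ∃ ε : ℝ, 0 < ε ∧ ∀ᶠ N : ℕ in atTop, ε * (N : ℝ) ^ 2 ≤ ((S ∩ ball N).ncard : ℝ)

lemma ball_sub (N : ℕ) : ball N ⊆ (↑(Finset.Icc (-(N : ℤ)) N ×ˢ Finset.Icc (-(N : ℤ)) N) : Set (ℤ × ℤ)) := by
  intro x hx
  simp only [ball, Set.mem_setOf_eq] at hx
  simp only [Finset.coe_product, Finset.coe_Icc, Set.mem_prod, Set.mem_Icc]
  have hN : (0 : ℤ) ≤ N := by positivity
  refine ⟨⟨?_, ?_⟩, ?_, ?_⟩ <;> nlinarith [sq_nonneg x.1, sq_nonneg x.2]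

lemma ball_finite (N : ℕ) : (ball N).Finite := (Finset.finite_toSet _).subset (ball_sub N)

lemma ball_card_le (N : ℕ) : (ball N).ncard ≤ (2 * N + 1) ^ 2 := by
  have h := Set.ncard_le_ncard (ball_sub N) (Finset.finite_toSet _)
  rw [Set.ncard_coe_finset, Finset.card_product] at h
  have : (Finset.Icc (-(N : ℤ)) N).card = 2 * N + 1 := by
    rw [Int.card_Icc]; omega
  rw [this] at h
  rw [sq]; exact h

lemma ball_card_pos (N : ℕ) : 0 < (ball N).ncard := by
  rw [Set.ncard_pos (ball_finite N)]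
  exact ⟨(0, 0), by simp only [ball, Set.mem_setOf_eq]; positivity⟩

lemma QG.posDens {S : Set (ℤ × ℤ)} (h : QG S) : PosDens S := by
  obtain ⟨ε, hε, hev⟩ := h
  unfold PosDens
  have hle : ∀ᶠ N : ℕ in atTop, ε / 9 ≤ ((S ∩ ball N).ncard : ℝ) / ((ball N).ncard : ℝ) := by
    filter_upwards [hev, eventually_ge_atTop 1] with N hN hN1
    have hb : (0 : ℝ) < ((ball N).ncard : ℝ) := by exact_mod_cast ball_card_pos N
    rw [le_div_iff₀ hb]
    have h1 : ((ball N).ncard : ℝ) ≤ (2 * N + 1) ^ 2 := by exact_mod_cast ball_card_le N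
    have h2 : (1 : ℝ) ≤ N := by exact_mod_cast hN1
    have h3 : ((2 * N + 1 : ℝ)) ^ 2 ≤ 9 * (N : ℝ) ^ 2 := by nlinarith
    calc ε / 9 * ((ball N).ncard : ℝ) ≤ ε / 9 * (9 * (N : ℝ) ^ 2) := by
          apply mul_le_mul_of_nonneg_left (h1.trans h3); positivity
      _ = ε * (N : ℝ) ^ 2 := by ring
      _ ≤ _ := hN
  have hbdd : IsBoundedUnder (· ≤ ·) atTop
      (fun N : ℕ => ((S ∩ ball N).ncard : ℝ) / ((ball N).ncard : ℝ)) := by
    refine ⟨1, ?_⟩
    rw [eventually_map]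
    refine Eventually.of_forall fun N => ?_
    have hb : (0 : ℝ) < ((ball N).ncard : ℝ) := by exact_mod_cast ball_card_pos N
    refine (div_le_one hb).2 ?_
    exact_mod_cast Set.ncard_le_ncard inter_subset_right (ball_finite N)
  have : ε / 9 ≤ liminf (fun N : ℕ => ((S ∩ ball N).ncard : ℝ) / ((ball N).ncard : ℝ)) atTop :=
    le_liminf_of_le hbdd.isCoboundedUnder_ge hle
  linarith [div_pos hε (by norm_num : (0 : ℝ) < 9)]

lemma QG.mono {S S' : Set (ℤ × ℤ)} (h : QG S) (hS : S ⊆ S') : QG S' := by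
  obtain ⟨ε, hε, hev⟩ := h
  refine ⟨ε, hε, hev.mono fun N hN => hN.trans ?_⟩
  exact_mod_cast Set.ncard_le_ncard (inter_subset_inter_left _ hS)
    ((ball_finite N).subset inter_subset_right)

/-- harmonic in the sum form implies harmonic in the average form on a cluster with at least two
points -/
lemma harm_avg {ω : Sym2 (ℤ × ℤ) → Bool} {C : Set (ℤ × ℤ)} (hC : InfComp (openG lat ω) C)
    {h : ℤ × ℤ → ℝ} (hh : ∀ x ∈ C, HarmAt (openG lat ω) h x) : HarmonicOn ω C h := by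
  classical
  intro x hx
  have h1 := hh x hx
  unfold HarmAt at h1
  have h0 : (oN ω x).Nonempty := by
    by_contra hne
    rw [Finset.not_nonempty_iff_eq_empty] at hne
    -- no neighbours: component is {x}
    have hno : ∀ y, ¬ (openG lat ω).Adj x y := by
      intro y hy
      have : y ∈ oN ω x := by
        unfold oN
        rw [Finset.mem_filter]
        refine ⟨?_, hy⟩
        have := lat_adj.1 hy.1
        unfold nb
        simp only [Finset.mem_insert, Finset.mem_singleton]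
        rcases this with ⟨h1, h2 | h2⟩ | ⟨h1, h2 | h2⟩
        · right; right; right; exact Prod.ext (by simp; omega) (by simp; omega)
        · right; right; left; exact Prod.ext (by simp; omega) (by simp; omega)
        · right; left; exact Prod.ext (by simp; omega) (by simp; omega)
        · left; exact Prod.ext (by simp; omega) (by simp; omega)
      rw [hne] at this
      exact absurd this (Finset.notMem_empty _)
    have hsub : C ⊆ {x} := by
      intro y hy
      have hr := (hC.2 x hx y).2 hy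
      rw [SimpleGraph.reachable_iff_reflTransGen] at hr
      rcases Relation.ReflTransGen.cases_head hr with rfl | ⟨c, hc, _⟩
      · rfl
      · exact absurd hc (hno c)
    exact hC.1 ((Set.finite_singleton x).subset hsub)
  have hc : (0 : ℝ) < ((oN ω x).card : ℝ) := by exact_mod_cast Finset.card_pos.2 h0
  rw [eq_div_iff hc.ne']
  have h2 : ∑ y ∈ oN ω x, (h y - h x) = 0 := h1
  rw [Finset.sum_sub_distrib, Finset.sum_const, nsmul_eq_mul] at h2
  linarith

/-- the conclusion for one configuration -/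
def HH (ω : Sym2 (ℤ × ℤ) → Bool) : Prop :=
  ∃ (C : Set (ℤ × ℤ)) (h : ℤ × ℤ → ℝ), InfComp (openG lat ω) C ∧ HarmonicOn ω C h ∧
    (∃ x ∈ C, ∃ y ∈ C, h x ≠ h y) ∧ QG {x | x ∈ C ∧ h x = 0}

lemma infComp_InfV {ω : Sym2 (ℤ × ℤ) → Bool} (hne : (InfV ω).Nonempty)
    (hu : ∀ u ∈ InfV ω, ∀ v ∈ InfV ω, (og ω).Reachable u v) : InfComp (openG lat ω) (InfV ω) := by
  have key : ∀ x ∈ InfV ω, ∀ y, (openG lat ω).Reachable x y → y ∈ InfV ω := by
    intro x hx y hxy
    have : {z | (og ω).Reachable y z} = {z | (og ω).Reachable x z} := by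
      ext z
      exact ⟨fun h => hxy.trans h, fun h => hxy.symm.trans h⟩
    show {z | (og ω).Reachable y z}.Infinite
    rw [this]; exact hx
  refine ⟨?_, fun x hx y => ⟨key x hx y, fun hy => hu x hx y hy⟩⟩
  obtain ⟨x, hx⟩ := hne
  have hsub : {y | (og ω).Reachable x y} ⊆ InfV ω := fun y hy => key x hx y hy
  exact Set.Infinite.mono hsub hx

lemma QG.nonempty {S : Set (ℤ × ℤ)} (h : QG S) : S.Nonempty := by
  obtain ⟨ε, hε, hev⟩ := h
  obtain ⟨N, hN1, hN⟩ := ((eventually_ge_atTop 1).and hev).exists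
  by_contra hS
  rw [Set.not_nonempty_iff_eq_empty] at hS
  subst hS
  simp only [empty_inter, Set.ncard_empty, Nat.cast_zero] at hN
  have : (1 : ℝ) ≤ N := by exact_mod_cast hN1
  nlinarith [mul_pos hε (by nlinarith : (0 : ℝ) < (N : ℝ) ^ 2)]

/-- deterministic part of the assembly -/
theorem det_part (hA5 : S_A5) (hB2 : S_B2) (hB3 : S_B3) (hB1 : S_B1) {A : ℤ} (hA : 2 ≤ A)
    {ω : Sym2 (ℤ × ℤ) → Bool} (h0 : E0 A (og ω)) (hp : Qs A 1 (og ω)) (hm : Qs A (-1) (og ω))
    (hu : ∀ u ∈ InfV ω, ∀ v ∈ InfV ω, (og ω).Reachable u v)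
    (hi : ∃ i : ℤ, 1 ≤ i ∧ (-i, 0) ∈ InfV ω) (hd : QG (Zw A ∩ InfV ω)) : HH ω := by
  classical
  obtain ⟨i, hi1, hi2⟩ := hi
  have hG : og ω ≤ lat := fun x y h => h.1
  have h1 := hB3 A hA (og ω) hG h0 hp hm i hi1 hi2
  obtain ⟨g, y0, hg1, hg2, hg3⟩ := hB2 A hA (og ω) hG _ h1
  have hC := infComp_InfV ⟨_, hi2⟩ hu
  have hz : (g y0, y0) ∈ InfV ω := by
    by_contra hz
    refine hg3 ((hB1 (ℤ × ℤ) (og ω)).2.2.2.2.1 (Rg g) (g y0, y0) ?_)
    exact Set.not_infinite.1 hz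
  obtain ⟨h, hh1, hh2, hh3⟩ := hA5 (og ω) (InfV ω) hG hC g y0 hg2 hz hg3
  refine ⟨InfV ω, h, hC, harm_avg hC hh1, ?_, ?_⟩
  · obtain ⟨x, hx⟩ := hd.nonempty
    refine ⟨x, hx.2, (g y0, y0), hz, ?_⟩
    rw [hh2 x (hg1 hx.1), hh3]; norm_num
  · exact hd.mono fun x hx => ⟨hx.2, hh2 x (hg1 hx.1)⟩

end Pool.Agent.W829.UC
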