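import Pool.Agent.W829.UC.Fin0

/-!
# MP_566bac_pr: probabilistic part of the assembly
-/

set_option autoImplicit false
set_option linter.all false

open MeasureTheory Set Filter
open Pool.Agent.H978R2

namespace Pool.Agent.W829.UC

/-- there is a vertex of the infinite cluster on the negative axis -/
theorem neg_axis (hC8 : S_C8) (p : NNReal) (hp : p ≤ 1) (h1 : (1 / 2 : ℝ) < p) :
    ∀ᵐ ω ∂(mu p hp), ∃ i : ℤ, 1 ≤ i ∧ ((-i, 0) : ℤ × ℤ) ∈ InfV ω := by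
  classical
  obtain ⟨θ, hθ, h⟩ := hC8 p hp h1
  have hinj : Function.Injective (fun i : ℤ => ((-i, 0) : ℤ × ℤ)) := by
    intro a b hab
    simpa using hab
  have hcard : ∀ k : ℕ, ((Finset.Icc (1 : ℤ) (2 ^ k)).image (fun i : ℤ => ((-i, 0) : ℤ × ℤ))).card
      = 2 ^ k := by
    intro k
    rw [Finset.card_image_of_injective _ hinj, Int.card_Icc]
    have : ((2 : ℤ) ^ k + 1 - 1) = ((2 ^ k : ℕ) : ℤ) := by push_cast; ring
    rw [this, Int.toNat_natCast]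
  have h2 := h (fun k => (Finset.Icc (1 : ℤ) (2 ^ k)).image (fun i : ℤ => ((-i, 0) : ℤ × ℤ))) 1
    (fun k => by
      rw [hcard k]
      exact ⟨le_refl _, Nat.pow_le_pow_right (by norm_num) (by omega)⟩)
  filter_upwards [h2] with ω hω
  obtain ⟨k, hk⟩ := hω.exists
  rw [hcard k] at hk
  have hpos : 0 < θ * (((2 ^ k : ℕ)) : ℝ) := by positivity
  have hne : ((↑((Finset.Icc (1 : ℤ) (2 ^ k)).image (fun i : ℤ => ((-i, 0) : ℤ × ℤ))) : Set (ℤ × ℤ))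
      ∩ InfV ω).Nonempty := by
    by_contra hcon
    rw [Set.not_nonempty_iff_eq_empty] at hcon
    rw [hcon] at hk
    simp only [Set.ncard_empty, Nat.cast_zero] at hk
    linarith
  obtain ⟨x, hx1, hx2⟩ := hne
  rw [Finset.mem_coe, Finset.mem_image] at hx1
  obtain ⟨i, hi, rfl⟩ := hx1
  exact ⟨i, (Finset.mem_Icc.1 hi).1, hx2⟩

/-- quadratic growth of the infinite cluster in the wedge -/
theorem wedge_QG (hC8 : S_C8) (p : NNReal) (hp : p ≤ 1) (h1 : (1 / 2 : ℝ) < p) {A : ℤ}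
    (hA : 2 ≤ A) : ∀ᵐ ω ∂(mu p hp), QG (Zw A ∩ InfV ω) := by
  classical
  obtain ⟨θ, hθ, h⟩ := hC8 p hp h1
  set S : ℕ → Finset (ℤ × ℤ) := fun k =>
    Finset.Icc (A * 2 ^ k) (2 * (A * 2 ^ k)) ×ˢ Finset.Icc (0 : ℤ) (2 ^ k) with hS
  obtain ⟨a, ha⟩ : ∃ a : ℕ, A = a := ⟨A.toNat, (Int.toNat_of_nonneg (by omega)).symm⟩
  have ha2 : 2 ≤ a := by omega
  have hcard : ∀ k, (S k).card = (a * 2 ^ k + 1) * (2 ^ k + 1) := by
    intro k
    simp only [hS]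
    rw [Finset.card_product, Int.card_Icc, Int.card_Icc]
    have e1 : (2 * (A * 2 ^ k) + 1 - A * 2 ^ k) = ((a * 2 ^ k + 1 : ℕ) : ℤ) := by
      rw [ha]; push_cast; ring
    have e2 : ((2 : ℤ) ^ k + 1 - 0) = ((2 ^ k + 1 : ℕ) : ℤ) := by push_cast; ring
    rw [e1, e2, Int.toNat_natCast, Int.toNat_natCast]
  have hlow : ∀ k, 2 ^ k * 2 ^ k ≤ (S k).card := by
    intro k
    rw [hcard k]
    have h3 : 2 ^ k ≤ a * 2 ^ k + 1 := by nlinarith [Nat.one_le_two_pow (n := k)]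
    exact Nat.mul_le_mul h3 (by omega)
  have h2 := h S (a + 3) (fun k => by
    refine ⟨?_, ?_⟩
    · refine le_trans ?_ (hlow k)
      nlinarith [Nat.one_le_two_pow (n := k)]
    · rw [hcard k]
      have h3 : a * 2 ^ k + 1 ≤ 2 ^ (a + k + 1) := by
        have h4 : a + 1 ≤ 2 ^ a := a.lt_two_pow_self
        have h5 : 1 ≤ 2 ^ k := Nat.one_le_two_pow
        calc a * 2 ^ k + 1 ≤ (a + 1) * 2 ^ k := by nlinarith
          _ ≤ 2 ^ a * 2 ^ k := Nat.mul_le_mul_right _ h4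
          _ = 2 ^ (a + k) := by rw [pow_add]
          _ ≤ 2 ^ (a + k + 1) := Nat.pow_le_pow_right (by norm_num) (by omega)
      have h4 : 2 ^ k + 1 ≤ 2 ^ (k + 1) := by
        rw [pow_succ]; nlinarith [Nat.one_le_two_pow (n := k)]
      calc (a * 2 ^ k + 1) * (2 ^ k + 1) ≤ 2 ^ (a + k + 1) * 2 ^ (k + 1) := Nat.mul_le_mul h3 h4
        _ = 2 ^ (a + k + 1 + (k + 1)) := by rw [← pow_add]
        _ ≤ 2 ^ ((a + 3) * (k + 1)) := Nat.pow_le_pow_right (by norm_num) (by nlinarith))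
  filter_upwards [h2] with ω hω
  refine ⟨θ / (36 * (a : ℝ) ^ 2), by positivity, ?_⟩
  rw [eventually_atTop] at hω
  obtain ⟨K, hK⟩ := hω
  rw [eventually_atTop]
  refine ⟨3 * a * 2 ^ K, fun N hN => ?_⟩
  -- choose k with 3 a 2^k ≤ N < 3 a 2^(k+1)
  obtain ⟨k, hk1, hk2, hk3⟩ : ∃ k, K ≤ k ∧ 3 * a * 2 ^ k ≤ N ∧ N < 3 * a * 2 ^ (k + 1) := by
    have hex : ∃ k, N < 3 * a * 2 ^ (k + 1) := by
      refine ⟨N, ?_⟩
      have : N < 2 ^ N := N.lt_two_pow_self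
      rw [pow_succ]; nlinarith
    refine ⟨Nat.find hex, ?_, ?_, Nat.find_spec hex⟩
    · by_contra hlt
      push Not at hlt
      have h5 := Nat.find_spec hex
      have h6 : 2 ^ (Nat.find hex + 1) ≤ 2 ^ K := Nat.pow_le_pow_right (by norm_num) (by omega)
      have h7 : 3 * a * 2 ^ (Nat.find hex + 1) ≤ 3 * a * 2 ^ K := Nat.mul_le_mul_left _ h6
      omega
    · by_cases h0 : Nat.find hex = 0
      · rw [h0]
        have : 2 ^ 0 ≤ 2 ^ K := Nat.pow_le_pow_right (by norm_num) (by omega)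
        have h7 : 3 * a * 2 ^ 0 ≤ 3 * a * 2 ^ K := Nat.mul_le_mul_left _ this
        omega
      · have h5 := Nat.find_min hex (m := Nat.find hex - 1) (by omega)
        have h6 : Nat.find hex - 1 + 1 = Nat.find hex := by omega
        rw [h6] at h5
        omega
  have h3 := hK k hk1
  have hsub : (↑(S k) : Set (ℤ × ℤ)) ∩ InfV ω ⊆ (Zw A ∩ InfV ω) ∩ ball N := by
    rintro x ⟨hx1, hx2⟩
    rw [Finset.mem_coe, Finset.mem_product, Finset.mem_Icc, Finset.mem_Icc] at hx1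
    obtain ⟨⟨b1, b2⟩, b3, b4⟩ := hx1
    have hpow : (1 : ℤ) ≤ 2 ^ k := by exact_mod_cast Nat.one_le_two_pow
    refine ⟨⟨⟨?_, ?_⟩, hx2⟩, ?_⟩
    · nlinarith
    · rw [abs_of_nonneg b3]
      nlinarith
    · show x.1 ^ 2 + x.2 ^ 2 ≤ (N : ℤ) ^ 2
      have hN' : 3 * A * 2 ^ k ≤ (N : ℤ) := by
        rw [ha]; exact_mod_cast hk2
      have hx0 : 0 ≤ x.1 := by nlinarith
      have hsum : x.1 + x.2 ≤ 3 * A * 2 ^ k := by nlinarith
      nlinarith [mul_nonneg hx0 b3]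
  have h4 : ((↑(S k) ∩ InfV ω : Set (ℤ × ℤ)).ncard : ℝ) ≤ (((Zw A ∩ InfV ω) ∩ ball N).ncard : ℝ) := by
    exact_mod_cast Set.ncard_le_ncard hsub ((ball_finite N).subset inter_subset_right)
  refine le_trans ?_ (h3.trans h4)
  have h5 : (N : ℝ) ≤ 6 * a * 2 ^ k := by
    have : (N : ℝ) ≤ 3 * a * 2 ^ (k + 1) := by exact_mod_cast hk3.le
    rw [pow_succ] at this; linarith
  have h6 : ((2 : ℝ) ^ k) ^ 2 ≤ ((S k).card : ℝ) := by
    rw [sq]; exact_mod_cast hlow k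
  have ha0 : (0 : ℝ) < a := by positivity
  calc θ / (36 * (a : ℝ) ^ 2) * (N : ℝ) ^ 2 ≤ θ / (36 * (a : ℝ) ^ 2) * (6 * a * 2 ^ k) ^ 2 := by
        apply mul_le_mul_of_nonneg_left _ (by positivity)
        exact pow_le_pow_left₀ (by positivity) h5 2
    _ = θ * ((2 : ℝ) ^ k) ^ 2 := by field_simp; ring
    _ ≤ θ * ((S k).card : ℝ) := mul_le_mul_of_nonneg_left h6 hθ.le

/-- the good event: the deterministic conditions hold with positive probability -/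
theorem good_event (hB5a : S_B5a) (hB5b : S_B5b) (hC2 : S_C2) (hC5a : S_C5a) (hC5b : S_C5b)
    (hC6 : S_C6) (p : NNReal) (hp : p ≤ 1) (h1 : (1 / 2 : ℝ) < p) (h2 : p < 1) :
    ∃ A : ℤ, 2 ≤ A ∧ ∃ E : Set (Sym2 (ℤ × ℤ) → Bool), MeasurableSet E ∧ 0 < mu p hp E ∧
      ∀ ω ∈ E, Qs A 1 (og ω) ∧ Qs A (-1) (og ω) ∧ E0 A (og ω) := by
  obtain ⟨κ, hκ, hcut⟩ := hC2 p hp h1
  obtain ⟨a, ha⟩ := exists_nat_gt (1 / κ)
  set A : ℤ := max 2 a with hAdef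
  have hA2 : 2 ≤ A := le_max_left _ _
  have hA1 : 1 ≤ A := by omega
  have hκA : 1 < κ * (A : ℝ) := by
    have : (a : ℝ) ≤ (A : ℝ) := by exact_mod_cast le_max_right _ _
    rw [div_lt_iff₀ hκ] at ha
    nlinarith
  refine ⟨A, hA2, hC6 p hp h2 A hA2 ?_⟩
  obtain ⟨E, hEm, hEp, hE⟩ := hC5b p hp (κ * A) A hA1 hκA
    (fun Λ hΛ => hC5a p hp κ A hA1 (hcut A hA1) Λ hΛ)
  refine ⟨E, hEm, hEp, fun ω hω => ?_⟩
  intro W hW hcert i hi hcon
  have hG : og ω ≤ lat := fun x y h => h.1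
  obtain ⟨W2, hW2, hc2, j, hj, hj1, hj2⟩ := hB5a A hA2 (og ω) hG W hW hcert i hi hcon
  obtain ⟨k, Λ, hk, hΛ, hle⟩ := hB5b A hA2 (og ω) hG W2 j hW2 hc2 hj hj1 hj2
  have := hE ω hω k hk Λ hΛ
  omega

end Pool.Agent.W829.UC
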