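import Pool.Agent.W829.UC.Fin1
import Pool.Agent.W829.UC.Stmts2

/-!
# MP_566bac_pr: translation invariance and the almost sure statement
-/

set_option autoImplicit false
set_option linter.all false

open MeasureTheory Set Filter
open Pool.Agent.H978R2

namespace Pool.Agent.W829.UC

lemma shiftC_adj (t : ℤ × ℤ) (ω : Sym2 (ℤ × ℤ) → Bool) (x y : ℤ × ℤ) :
    (openG lat (shiftC t ω)).Adj x y ↔ (openG lat ω).Adj (x + t) (y + t) := by
  have h : lat.Adj (x + t) (y + t) ↔ lat.Adj x y := trs_adj t x y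
  constructor
  · rintro ⟨h1, h2⟩; exact ⟨h.2 h1, h2⟩
  · rintro ⟨h1, h2⟩; exact ⟨h.1 h1, h2⟩

lemma shiftC_reach (t : ℤ × ℤ) (ω : Sym2 (ℤ × ℤ) → Bool) (x y : ℤ × ℤ) :
    (openG lat (shiftC t ω)).Reachable x y ↔ (openG lat ω).Reachable (x + t) (y + t) := by
  let φ : openG lat (shiftC t ω) ≃g openG lat ω :=
    ⟨Equiv.addRight t, fun {x y} => (shiftC_adj t ω x y).symm⟩
  exact (SimpleGraph.Iso.reachable_iff (φ := φ)).symm

lemma nb_shift (t x : ℤ × ℤ) : nb (x + t) = (nb x).image (fun y => y + t) := by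
  unfold nb
  ext y
  simp only [Finset.mem_insert, Finset.mem_singleton, Finset.mem_image, exists_eq_or_imp,
    exists_eq_left, Prod.fst_add, Prod.snd_add]
  constructor
  · rintro (h | h | h | h)
    · left; rw [h]; ext <;> simp <;> ring
    · right; left; rw [h]; ext <;> simp <;> ring
    · right; right; left; rw [h]; ext <;> simp <;> ring
    · right; right; right; rw [h]; ext <;> simp <;> ring
  · rintro (h | h | h | h)
    · left; rw [← h]; ext <;> simp <;> ring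
    · right; left; rw [← h]; ext <;> simp <;> ring
    · right; right; left; rw [← h]; ext <;> simp <;> ring
    · right; right; right; rw [← h]; ext <;> simp <;> ring

lemma oN_shift (t x : ℤ × ℤ) (ω : Sym2 (ℤ × ℤ) → Bool) :
    oN ω (x + t) = (oN (shiftC t ω) x).image (fun y => y + t) := by
  classical
  unfold oN
  rw [nb_shift]
  ext y
  simp only [Finset.mem_filter, Finset.mem_image]
  constructor
  · rintro ⟨⟨z, hz, rfl⟩, h⟩
    exact ⟨z, ⟨hz, (shiftC_adj t ω x z).2 h⟩, rfl⟩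
  · rintro ⟨z, ⟨hz, h⟩, rfl⟩
    exact ⟨⟨z, hz, rfl⟩, (shiftC_adj t ω x z).1 h⟩

lemma QG_shift {S : Set (ℤ × ℤ)} (t : ℤ × ℤ) (h : QG S) : QG {x | x - t ∈ S} := by
  obtain ⟨ε, hε, hev⟩ := h
  set M : ℕ := t.1.natAbs + t.2.natAbs with hM
  refine ⟨ε / 4, by positivity, ?_⟩
  have hev2 : ∀ᶠ N : ℕ in atTop, ε * ((N - M : ℕ) : ℝ) ^ 2 ≤ ((S ∩ ball (N - M)).ncard : ℝ) := by
    rw [eventually_atTop] at hev ⊢
    obtain ⟨K, hK⟩ := hev
    exact ⟨K + M, fun N hN => hK (N - M) (by omega)⟩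
  filter_upwards [hev2, eventually_ge_atTop (2 * M)] with N hN hNM
  have hsub : (fun x => x + t) '' (S ∩ ball (N - M)) ⊆ {x | x - t ∈ S} ∩ ball N := by
    rintro _ ⟨x, ⟨hx1, hx2⟩, rfl⟩
    refine ⟨by simpa using hx1, ?_⟩
    simp only [ball, Set.mem_setOf_eq, Prod.fst_add, Prod.snd_add] at hx2 ⊢
    have h1 : ((N - M : ℕ) : ℤ) = N - M := by push_cast [Nat.cast_sub (by omega : M ≤ N)]; ring
    rw [h1] at hx2
    -- Euclidean triangle inequality
    have ht : t.1 ^ 2 + t.2 ^ 2 ≤ (M : ℤ) ^ 2 := by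
      have e1 : (t.1.natAbs : ℤ) = |t.1| := Int.natCast_natAbs _
      have e2 : (t.2.natAbs : ℤ) = |t.2| := Int.natCast_natAbs _
      have e3 : (M : ℤ) = |t.1| + |t.2| := by rw [hM]; push_cast; rfl
      rw [e3]
      nlinarith [abs_nonneg t.1, abs_nonneg t.2, sq_abs t.1, sq_abs t.2,
        mul_nonneg (abs_nonneg t.1) (abs_nonneg t.2)]
    have hM0 : (0 : ℤ) ≤ M := by positivity
    have hNM' : (0 : ℤ) ≤ (N : ℤ) - M := by
      have : (M : ℤ) ≤ N := by exact_mod_cast (by omega : M ≤ N)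
      linarith
    have hcs : x.1 * t.1 + x.2 * t.2 ≤ ((N : ℤ) - M) * M := by
      have h5 : (x.1 * t.1 + x.2 * t.2) ^ 2 ≤ (((N : ℤ) - M) * M) ^ 2 := by
        calc (x.1 * t.1 + x.2 * t.2) ^ 2 ≤ (x.1 ^ 2 + x.2 ^ 2) * (t.1 ^ 2 + t.2 ^ 2) := by
              nlinarith [sq_nonneg (x.1 * t.2 - x.2 * t.1)]
          _ ≤ ((N : ℤ) - M) ^ 2 * (M : ℤ) ^ 2 := by
              apply mul_le_mul hx2 ht (by positivity) (by positivity)
          _ = _ := by ring
      exact le_of_sq_le_sq h5 (mul_nonneg hNM' hM0)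
    nlinarith
  have hinj : Function.Injective (fun x : ℤ × ℤ => x + t) := add_left_injective t
  have h2 : ((S ∩ ball (N - M)).ncard : ℝ) ≤ (({x | x - t ∈ S} ∩ ball N).ncard : ℝ) := by
    rw [← Set.ncard_image_of_injective _ hinj]
    exact_mod_cast Set.ncard_le_ncard hsub ((ball_finite N).subset inter_subset_right)
  refine le_trans ?_ (hN.trans h2)
  have h3 : (N : ℝ) / 2 ≤ ((N - M : ℕ) : ℝ) := by
    rw [Nat.cast_sub (by omega)]
    have : (2 * M : ℝ) ≤ N := by exact_mod_cast hNM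
    linarith
  calc ε / 4 * (N : ℝ) ^ 2 = ε * ((N : ℝ) / 2) ^ 2 := by ring
    _ ≤ ε * ((N - M : ℕ) : ℝ) ^ 2 := by
        apply mul_le_mul_of_nonneg_left _ hε.le
        exact pow_le_pow_left₀ (by positivity) h3 2

theorem HH_shift (t : ℤ × ℤ) (ω : Sym2 (ℤ × ℤ) → Bool) (h : HH (shiftC t ω)) : HH ω := by
  classical
  obtain ⟨C, h, hC, hh, ⟨x, hx, y, hy, hxy⟩, hq⟩ := h
  refine ⟨{z | z - t ∈ C}, fun z => h (z - t), ⟨?_, ?_⟩, ?_, ⟨x + t, by simpa using hx, y + t,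
    by simpa using hy, by simpa using hxy⟩, ?_⟩
  · have : {z | z - t ∈ C} = (fun x => x + t) '' C := by
      ext z
      constructor
      · intro hz; exact ⟨z - t, hz, by simp⟩
      · rintro ⟨w, hw, rfl⟩; simpa using hw
    rw [this]
    exact hC.1.image (add_left_injective t).injOn
  · intro z hz w
    have := hC.2 (z - t) hz (w - t)
    rw [shiftC_reach] at this
    simpa using this
  · intro z hz
    have h1 := hh (z - t) hz
    have h2 := oN_shift t (z - t) ω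
    rw [sub_add_cancel] at h2
    have hinj : Function.Injective (fun x : ℤ × ℤ => x + t) := add_left_injective t
    rw [h2, Finset.sum_image (fun a _ b _ hab => hinj hab),
      Finset.card_image_of_injective _ hinj]
    simpa using h1
  · have h1 := QG_shift t hq
    exact h1.mono fun z hz => hz

lemma shiftC_map (p : NNReal) (hp : p ≤ 1) (t : ℤ × ℤ) :
    (mu p hp).map (shiftC t) = mu p hp := by
  have hj : Function.Injective (Sym2.map (fun x : ℤ × ℤ => x + t)) :=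
    Sym2.map.injective (add_left_injective t)
  exact map_comp_inj p hp _ hj

lemma measurable_shiftC (t : ℤ × ℤ) : Measurable (shiftC t) := by
  rw [measurable_pi_iff]; intro i; exact measurable_pi_apply _

/-- the almost sure statement -/
theorem ae_HH (hA5 : S_A5) (hB1 : S_B1) (hB2 : S_B2) (hB3 : S_B3) (hB5a : S_B5a) (hB5b : S_B5b)
    (hC2 : S_C2) (hC5a : S_C5a) (hC5b : S_C5b) (hC6 : S_C6) (hC7b : S_C7b) (hC8 : S_C8)
    (hC9 : S_C9) (p : NNReal) (hp : p ≤ 1) (h1 : (1 / 2 : ℝ) < p) (h2 : p < 1) :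
    ∀ᵐ ω ∂(mu p hp), HH ω := by
  obtain ⟨A, hA, E, hEm, hEp, hE⟩ := good_event hB5a hB5b hC2 hC5a hC5b hC6 p hp h1 h2
  have hall : ∀ᵐ ω ∂(mu p hp), (∀ u ∈ InfV ω, ∀ v ∈ InfV ω, (og ω).Reachable u v) ∧
      (∃ i : ℤ, 1 ≤ i ∧ ((-i, 0) : ℤ × ℤ) ∈ InfV ω) ∧ QG (Zw A ∩ InfV ω) := by
    filter_upwards [(hC7b p hp h1).1, neg_axis hC8 p hp h1, wedge_QG hC8 p hp h1 hA] with ω a b c
    exact ⟨a.2, b, c⟩
  have hall2 : ∀ᵐ ω ∂(mu p hp), ∀ t : ℤ × ℤ,
      (∀ u ∈ InfV (shiftC t ω), ∀ v ∈ InfV (shiftC t ω), (og (shiftC t ω)).Reachable u v) ∧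
      (∃ i : ℤ, 1 ≤ i ∧ ((-i, 0) : ℤ × ℤ) ∈ InfV (shiftC t ω)) ∧
      QG (Zw A ∩ InfV (shiftC t ω)) := by
    rw [ae_all_iff]
    intro t
    have hmp : MeasurePreserving (shiftC t) (mu p hp) (mu p hp) :=
      ⟨measurable_shiftC t, shiftC_map p hp t⟩
    exact hmp.quasiMeasurePreserving.ae hall
  filter_upwards [hall2, hC9 p hp E hEm hEp] with ω ha hb
  obtain ⟨t, ht⟩ := hb
  obtain ⟨b1, b2, b3⟩ := ha t
  obtain ⟨q1, q2, q3⟩ := hE _ ht
  exact HH_shift t ω (det_part hA5 hB2 hB3 hB1 hA q3 q1 q2 b1 b2 b3)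

end Pool.Agent.W829.UC
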