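import Pool.Agent.W829.UC.Stmts

set_option autoImplicit false
set_option linter.all false

open MeasureTheory Set
open Pool.Agent.H978R2

namespace Pool.Agent.W829.UC.B3a

lemma zw_row0 {A : ℤ} (hA : 2 ≤ A) {a : ℤ} : ((a, 0) : ℤ × ℤ) ∈ Zw A ↔ 0 ≤ a := by
  simp only [Zw, Set.mem_setOf_eq, abs_zero]
  constructor
  · exact fun h => h.1
  · intro h; exact ⟨h, by linarith⟩

/-- entering the wedge from outside -/
lemma enter {A : ℤ} (hA : 2 ≤ A) {x c : ℤ × ℤ} (hx : x ∉ Zw A) (hc : c ∈ Zw A)
    (h : lat.Adj x c) : (c = (0, 0) ∧ (x = (-1, 0) ∨ x = (0, 1) ∨ x = (0, -1))) ∨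
      (1 ≤ c.2 ∧ 1 ≤ x.2) ∨ (c.2 ≤ -1 ∧ x.2 ≤ -1) := by
  have h := lat_adj.1 h
  obtain ⟨a, b⟩ := x
  obtain ⟨c, d⟩ := c
  simp only [Zw, Set.mem_setOf_eq, not_and, not_lt] at hx hc h
  obtain ⟨hc1, hc2⟩ := hc
  rcases lt_trichotomy d 0 with hd | hd | hd
  · -- lower
    right; right
    refine ⟨by simp only; omega, ?_⟩
    by_contra hb
    simp only at hb
    rw [abs_of_neg hd] at hc2
    have hb' : b = 0 := by omega
    subst hb'
    have hc0 : 0 < c := by nlinarith
    have := hx (by omega)
    simp only [abs_zero] at this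
    have : a ≤ -A := by linarith
    omega
  · subst hd
    left
    have hx' : a < 0 ∨ a ≤ A * (|b| - 1) := by
      by_cases h0 : 0 ≤ a
      · exact Or.inr (hx h0)
      · left; omega
    have hb : b = 0 ∨ b = 1 ∨ b = -1 := by omega
    rcases hb with rfl | rfl | rfl
    · have ha : a < 0 := by
        rcases hx' with h1 | h1
        · exact h1
        · simp only [abs_zero] at h1; linarith
      have : c = 0 ∧ a = -1 := by omega
      obtain ⟨rfl, rfl⟩ := this
      exact ⟨rfl, Or.inl rfl⟩
    · have ha : a ≤ 0 := by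
        rcases hx' with h1 | h1
        · omega
        · simpa using h1
      have : c = 0 ∧ a = 0 := by omega
      obtain ⟨rfl, rfl⟩ := this
      exact ⟨rfl, Or.inr (Or.inl rfl)⟩
    · have ha : a ≤ 0 := by
        rcases hx' with h1 | h1
        · omega
        · simpa using h1
      have : c = 0 ∧ a = 0 := by omega
      obtain ⟨rfl, rfl⟩ := this
      exact ⟨rfl, Or.inr (Or.inr rfl)⟩
  · right; left
    refine ⟨by simp only; omega, ?_⟩
    by_contra hb
    simp only at hb
    rw [abs_of_pos hd] at hc2
    have hb' : b = 0 := by omega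
    subst hb'
    have hc0 : 0 < c := by nlinarith
    have := hx (by omega)
    simp only [abs_zero] at this
    have : a ≤ -A := by linarith
    omega

lemma aux {x c : ℤ × ℤ} (h : lat.Adj x c) (hx2 : x.2 = 0) (hc2 : c.2 ≠ 0) :
    c.1 = x.1 ∧ (c.2 = 1 ∨ c.2 = -1) := by
  have hl := lat_adj.1 h
  omega

lemma aux2 {x c : ℤ × ℤ} {s : ℤ} (h : lat.Adj x c) (hs : s = 1 ∨ s = -1) (hx : 1 ≤ s * x.2)
    (hc : ¬ 1 ≤ s * c.2) : c.2 = 0 := by
  have hl := lat_adj.1 h
  rcases hs with rfl | rfl <;> omega

theorem main : S_B3a := by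
  classical
  intro A hA G hG hE W i hi hcon
  obtain ⟨hx0, a, haZ, haW, hr⟩ := hcon
  set Goal : Prop := ∃ s i' : ℤ, (s = 1 ∨ s = -1) ∧ A ≤ i' ∧
    Con (res G (Hf s)) (W ∩ Hf s) (-i', s) (Zw A ∩ Hf s) with hGoal
  have key : ∀ x, Relation.ReflTransGen (res G W).Adj x a → x ∈ Zw A ∨ ((x.2 = 0 → Goal) ∧
      ∀ s : ℤ, (s = 1 ∨ s = -1) → x ∈ Hf s → Goal ∨
        Con (res G (Hf s)) (W ∩ Hf s) x (Zw A ∩ Hf s)) := by
    intro x hx
    induction hx using Relation.ReflTransGen.head_induction_on with
    | refl => exact Or.inl haZ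
    | @head x c hxc _ ih =>
      by_cases hxZ : x ∈ Zw A
      · exact Or.inl hxZ
      · right
        have hlat : lat.Adj x c := hG hxc.1
        have hl := lat_adj.1 hlat
        by_cases hcZ : c ∈ Zw A
        · rcases enter hA hxZ hcZ hlat with ⟨hc0, hx1⟩ | ⟨h1, h2⟩ | ⟨h1, h2⟩
          · exfalso
            subst hc0
            rcases hx1 with rfl | rfl | rfl
            · exact hE.1 hxc.1.symm
            · have := (hE.2 0 (le_refl _) (by omega)).1
              simp only [neg_zero] at this
              exact this hxc.1.symm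
            · have := (hE.2 0 (le_refl _) (by omega)).2
              simp only [neg_zero] at this
              exact this hxc.1.symm
          · refine ⟨fun h => by omega, fun s hs hxs => ?_⟩
            rcases hs with rfl | rfl
            · right
              have hcs : c ∈ Hf 1 := by simp only [Hf, Set.mem_setOf_eq]; omega
              refine ⟨⟨hxc.2.1, hxs⟩, c, ⟨hcZ, hcs⟩, ⟨hxc.2.2, hcs⟩, ?_⟩
              exact SimpleGraph.Adj.reachable ⟨⟨hxc.1, hxs, hcs⟩, ⟨hxc.2.1, hxs⟩, ⟨hxc.2.2, hcs⟩⟩
            · simp only [Hf, Set.mem_setOf_eq] at hxs; omega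
          · refine ⟨fun h => by omega, fun s hs hxs => ?_⟩
            rcases hs with rfl | rfl
            · simp only [Hf, Set.mem_setOf_eq] at hxs; omega
            · right
              have hcs : c ∈ Hf (-1) := by simp only [Hf, Set.mem_setOf_eq]; omega
              refine ⟨⟨hxc.2.1, hxs⟩, c, ⟨hcZ, hcs⟩, ⟨hxc.2.2, hcs⟩, ?_⟩
              exact SimpleGraph.Adj.reachable ⟨⟨hxc.1, hxs, hcs⟩, ⟨hxc.2.1, hxs⟩, ⟨hxc.2.2, hcs⟩⟩
        · rcases ih with ih | ⟨ih1, ih2⟩
          · exact absurd ih hcZ
          · refine ⟨fun hx2 => ?_, fun s hs hxs => ?_⟩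
            · by_cases hc2 : c.2 = 0
              · exact ih1 hc2
              · -- c = (x.1, ±1)
                have hx1 : x.1 < 0 := by
                  by_contra hcon
                  apply hxZ
                  have : x = (x.1, 0) := Prod.ext rfl hx2
                  rw [this, zw_row0 hA]; omega
                have hc : c.1 = x.1 ∧ (c.2 = 1 ∨ c.2 = -1) := aux hlat hx2 hc2
                have hcs : c ∈ Hf c.2 := by
                  simp only [Hf, Set.mem_setOf_eq]
                  rcases hc.2 with h | h <;> rw [h] <;> norm_num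
                rcases ih2 c.2 hc.2 hcs with h | h
                · exact h
                · refine ⟨c.2, -x.1, hc.2, ?_, ?_⟩
                  · by_contra hlt
                    push Not at hlt
                    have he := hE.2 (-x.1) (by omega) hlt
                    rw [neg_neg] at he
                    have hadj := hxc.1
                    have ex : x = (x.1, 0) := Prod.ext rfl hx2
                    rcases hc.2 with h1 | h1
                    · have ec : c = (x.1, 1) := Prod.ext hc.1 h1
                      rw [ex, ec] at hadj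
                      exact he.1 hadj
                    · have ec : c = (x.1, -1) := Prod.ext hc.1 h1
                      rw [ex, ec] at hadj
                      exact he.2 hadj
                  · have ec : ((-(-x.1), c.2) : ℤ × ℤ) = c := Prod.ext (by simp; omega) rfl
                    rw [ec]; exact h
            · by_cases hcs : c ∈ Hf s
              · rcases ih2 s hs hcs with h | ⟨h1, b, h2, h3, h4⟩
                · exact Or.inl h
                · right
                  refine ⟨⟨hxc.2.1, hxs⟩, b, h2, h3, ?_⟩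
                  refine SimpleGraph.Reachable.trans ?_ h4
                  exact SimpleGraph.Adj.reachable
                    ⟨⟨hxc.1, hxs, hcs⟩, ⟨hxc.2.1, hxs⟩, ⟨hxc.2.2, hcs⟩⟩
              · left
                apply ih1
                simp only [Hf, Set.mem_setOf_eq] at hcs hxs
                exact aux2 hlat hs hxs hcs
  rcases key (-i, 0) ((SimpleGraph.reachable_iff_reflTransGen _ _).1 hr) with h | h
  · rw [zw_row0 hA] at h; omega
  · exact h.1 rfl

end Pool.Agent.W829.UC.B3a
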